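import Mathlib

set_option autoImplicit false

/-!
# Fourier decay forces large covering numbers
-/

open MeasureTheory ProbabilityTheory Filter Topology
open scoped ENNReal NNReal

namespace Pool.Agent.TH968

/-- the Fourier transform in the vertical direction -/
noncomputable def psi (μ : Measure (ℝ × ℝ)) (u : ℝ) : ℂ :=
  ∫ p, Complex.exp (((u * p.2 : ℝ) : ℂ) * Complex.I) ∂μ

theorem norm_psi_le (μ : Measure (ℝ × ℝ)) [IsProbabilityMeasure μ] (u : ℝ) : ‖psi μ u‖ ≤ 1 := by
  unfold psi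
  refine (norm_integral_le_of_norm_le_const (C := 1) (ae_of_all _ (fun p => ?_))).trans ?_
  · rw [Complex.norm_exp_ofReal_mul_I]
  · simp

theorem gauss_small {r : ℝ} (hr : 0 ≤ r) :
    (gaussianReal 0 1).real (Set.Icc (-r) r) ≤ 2 * r := by
  rw [measureReal_def, gaussianReal_apply _ one_ne_zero]
  refine ENNReal.toReal_le_of_le_ofReal (by positivity) ?_
  have h : ∀ x, gaussianPDF 0 1 x ≤ 1 := by
    intro x
    unfold gaussianPDF
    rw [← ENNReal.ofReal_one]
    apply ENNReal.ofReal_le_ofReal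
    unfold gaussianPDFReal
    have h1 : (√(2 * Real.pi * ((1 : ℝ≥0) : ℝ)))⁻¹ ≤ 1 := by
      apply inv_le_one_of_one_le₀
      rw [Real.one_le_sqrt]
      push_cast
      nlinarith [Real.pi_gt_three]
    have h2 : Real.exp (-(x - 0) ^ 2 / (2 * ((1 : ℝ≥0) : ℝ))) ≤ 1 := by
      rw [Real.exp_le_one_iff]
      push_cast
      have := sq_nonneg (x - 0)
      apply div_nonpos_of_nonpos_of_nonneg <;> linarith
    have h3 : 0 ≤ (√(2 * Real.pi * ((1 : ℝ≥0) : ℝ)))⁻¹ := by positivity
    calc _ ≤ 1 * 1 := mul_le_mul h1 h2 (by positivity) (by norm_num)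
      _ = 1 := by norm_num
  calc ∫⁻ x in Set.Icc (-r) r, gaussianPDF 0 1 x ≤ ∫⁻ x in Set.Icc (-r) r, 1 :=
        lintegral_mono h
    _ = ENNReal.ofReal (2 * r) := by
        rw [setLIntegral_one, Real.volume_Icc]
        congr 1
        ring

/-- upper bound for the Gaussian average of `|psi|^2` -/
theorem upper {μ : Measure (ℝ × ℝ)} [IsProbabilityMeasure μ] {C r : ℝ}
    (hr : 0 < r) (hr1 : r ≤ 1)
    (hdec : ∀ u : ℝ, 1 ≤ |u| → ‖psi μ u‖ ≤ C * |u| ^ (-(1:ℝ)/4)) :
    ∫ g, ‖psi μ (g / r ^ 4)‖ ^ 2 ∂(gaussianReal 0 1) ≤ 2 * r ^ 2 + C ^ 2 * r := by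
  have hpt : ∀ g : ℝ, ‖psi μ (g / r ^ 4)‖ ^ 2 ≤
      (Set.Icc (-(r^2)) (r^2)).indicator (fun _ => (1:ℝ)) g + C ^ 2 * r := by
    intro g
    by_cases hg : g ∈ Set.Icc (-(r^2)) (r^2)
    · rw [Set.indicator_of_mem hg]
      have h1 := norm_psi_le μ (g / r ^ 4)
      have h2 := norm_nonneg (psi μ (g / r ^ 4))
      have : 0 ≤ C ^ 2 * r := by positivity
      nlinarith
    · rw [Set.indicator_of_notMem hg, zero_add]
      have hg' : r ^ 2 < |g| := by
        rw [Set.mem_Icc, ← abs_le] at hg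
        exact not_le.1 hg
      have hu : r⁻¹ ^ 2 ≤ |g / r ^ 4| := by
        rw [abs_div, abs_of_pos (by positivity : 0 < r ^ 4), le_div_iff₀ (by positivity)]
        have : r⁻¹ ^ 2 * r ^ 4 = r ^ 2 := by field_simp
        rw [this]; exact hg'.le
      have hu1 : 1 ≤ |g / r ^ 4| := by
        refine le_trans ?_ hu
        have : 1 ≤ r⁻¹ := (one_le_inv₀ hr).2 hr1
        nlinarith
      have h3 := hdec _ hu1
      have hupos : 0 < |g / r ^ 4| := lt_of_lt_of_le one_pos hu1
      have h4 : ‖psi μ (g / r ^ 4)‖ ^ 2 ≤ (C * |g / r ^ 4| ^ (-(1:ℝ)/4)) ^ 2 := by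
        exact pow_le_pow_left₀ (norm_nonneg _) h3 2
      refine h4.trans ?_
      rw [mul_pow]
      refine mul_le_mul_of_nonneg_left ?_ (sq_nonneg _)
      rw [← Real.rpow_natCast, ← Real.rpow_mul hupos.le]
      have e1 : (-(1:ℝ)/4) * ((2 : ℕ) : ℝ) = -(1/2) := by norm_num
      rw [e1]
      calc |g / r ^ 4| ^ (-(1/2) : ℝ) ≤ (r⁻¹ ^ 2) ^ (-(1/2) : ℝ) :=
            Real.rpow_le_rpow_of_nonpos (by positivity) hu (by norm_num)
        _ = r := by
            rw [← Real.rpow_natCast, ← Real.rpow_mul (by positivity)]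
            norm_num
            rw [Real.rpow_neg_one, inv_inv]
  have hmeas : Measurable (fun g => ‖psi μ (g / r ^ 4)‖ ^ 2) := by
    have : Measurable (psi μ) := by
      unfold psi
      refine (StronglyMeasurable.integral_prod_right (f := fun (u : ℝ) (p : ℝ × ℝ) =>
        Complex.exp (((u * p.2 : ℝ) : ℂ) * Complex.I)) ?_).measurable
      refine Measurable.stronglyMeasurable ?_
      fun_prop
    fun_prop
  have hint1 : Integrable (fun g => ‖psi μ (g / r ^ 4)‖ ^ 2) (gaussianReal 0 1) := by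
    refine Integrable.of_bound hmeas.aestronglyMeasurable 1 (ae_of_all _ (fun g => ?_))
    rw [norm_pow, norm_norm]
    exact pow_le_one₀ (norm_nonneg _) (norm_psi_le _ _)
  have hint2 : Integrable (fun g => (Set.Icc (-(r^2)) (r^2)).indicator (fun _ => (1:ℝ)) g + C ^ 2 * r)
      (gaussianReal 0 1) := by
    refine Integrable.add ?_ (integrable_const _)
    exact (integrable_const _).indicator measurableSet_Icc
  refine (integral_mono hint1 hint2 hpt).trans ?_
  rw [integral_add ((integrable_const _).indicator measurableSet_Icc) (integrable_const _),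
    integral_indicator measurableSet_Icc]
  simp only [integral_const, smul_eq_mul, mul_one, probReal_univ, one_mul]
  have := gauss_small (r := r ^ 2) (by positivity)
  simp only [measureReal_restrict_apply MeasurableSet.univ, Set.univ_inter]
  linarith

theorem psi_sq (μ : Measure (ℝ × ℝ)) [IsProbabilityMeasure μ] (u : ℝ) :
    ((‖psi μ u‖ ^ 2 : ℝ) : ℂ) = ∫ z, Complex.exp (((u * (z.1.2 - z.2.2) : ℝ) : ℂ) * Complex.I)
      ∂(μ.prod μ) := by
  have h1 : ((‖psi μ u‖ ^ 2 : ℝ) : ℂ) = psi μ u * (starRingEnd ℂ) (psi μ u) := by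
    rw [Complex.mul_conj, Complex.normSq_eq_norm_sq]
  rw [h1]
  have h2 : (starRingEnd ℂ) (psi μ u) = ∫ p : ℝ × ℝ,
      Complex.exp (((-(u * p.2) : ℝ) : ℂ) * Complex.I) ∂μ := by
    unfold psi
    rw [← integral_conj]
    congr 1
    ext p
    rw [← Complex.exp_conj]
    congr 1
    simp
  rw [h2]
  unfold psi
  rw [← integral_prod_mul]
  congr 1
  ext z
  rw [← Complex.exp_add]
  congr 1
  push_cast
  ring

theorem gauss_avg (μ : Measure (ℝ × ℝ)) [IsProbabilityMeasure μ] (d : ℝ) :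
    ∫ g, ‖psi μ (g / d)‖ ^ 2 ∂(gaussianReal 0 1)
      = ∫ z, Real.exp (-((z.1.2 - z.2.2) / d) ^ 2 / 2) ∂(μ.prod μ) := by
  have hC : ((∫ g, ‖psi μ (g / d)‖ ^ 2 ∂(gaussianReal 0 1) : ℝ) : ℂ)
      = ((∫ z, Real.exp (-((z.1.2 - z.2.2) / d) ^ 2 / 2) ∂(μ.prod μ) : ℝ) : ℂ) := by
    rw [← integral_complex_ofReal, ← integral_complex_ofReal]
    simp_rw [psi_sq]
    rw [integral_integral_swap]
    · congr 1
      ext z
      have h := charFun_gaussianReal (μ := 0) (v := 1) ((z.1.2 - z.2.2) / d)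
      rw [charFun_apply] at h
      have e1 : ∫ g : ℝ, Complex.exp (((g / d * (z.1.2 - z.2.2) : ℝ) : ℂ) * Complex.I)
          ∂(gaussianReal 0 1) = ∫ x : ℝ, Complex.exp (((inner ℝ x ((z.1.2 - z.2.2) / d) : ℝ) : ℂ)
            * Complex.I) ∂(gaussianReal 0 1) := by
        congr 1
        ext g
        congr 2
        simp only [RCLike.inner_apply, conj_trivial]
        congr 1
        ring
      rw [e1, h, Complex.ofReal_exp]
      congr 1
      push_cast
      ring
    · refine Integrable.of_bound ?_ 1 (ae_of_all _ (fun q => ?_))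
      · refine Measurable.aestronglyMeasurable ?_
        unfold Function.uncurry
        fun_prop
      · simp only [Function.uncurry]
        rw [Complex.norm_exp_ofReal_mul_I]
  exact_mod_cast hC

theorem lower {μ : Measure (ℝ × ℝ)} [IsProbabilityMeasure μ] {d : ℝ} (hd : 0 < d)
    {lab : ℝ × ℝ → ℕ} (hlab : Measurable lab) {L : ℕ} {A : Set (ℝ × ℝ)}
    (hA : ∀ᵐ p ∂μ, p ∈ A) (hL : ∀ p ∈ A, lab p ≤ L)
    (hclose : ∀ p ∈ A, ∀ q ∈ A, lab p = lab q → |p.2 - q.2| ≤ d) :
    Real.exp (-1/2) / (L + 1) ≤ ∫ g, ‖psi μ (g / d)‖ ^ 2 ∂(gaussianReal 0 1) := by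
  rw [gauss_avg]
  let a : ℕ → ℝ := fun l => ∫ p, (lab ⁻¹' {l}).indicator (fun _ => (1:ℝ)) p ∂μ
  have hSm : ∀ l, MeasurableSet (lab ⁻¹' {l}) := fun l => hlab (measurableSet_singleton l)
  have hind : ∀ l, Integrable ((lab ⁻¹' {l}).indicator (fun _ => (1:ℝ))) μ := fun l =>
    (integrable_const (1:ℝ)).indicator (hSm l)
  have hsum : ∑ l ∈ Finset.range (L + 1), a l = 1 := by
    rw [← integral_finsetSum _ (fun l _ => hind l)]
    have h2 : (fun p => ∑ l ∈ Finset.range (L + 1), (lab ⁻¹' {l}).indicator (fun _ => (1:ℝ)) p)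
        =ᵐ[μ] fun _ => (1:ℝ) := by
      filter_upwards [hA] with p hp
      rw [Finset.sum_eq_single (lab p)]
      · rw [Set.indicator_of_mem]; rfl
      · intro l _ hl
        rw [Set.indicator_of_notMem]
        intro h
        exact hl (by simpa using h.symm)
      · intro h
        exact absurd (Finset.mem_range.2 (Nat.lt_succ_of_le (hL p hp))) h
    rw [integral_congr_ae h2]
    simp
  have hcs : 1 ≤ ((L : ℝ) + 1) * ∑ l ∈ Finset.range (L + 1), (a l) ^ 2 := by
    have := sq_sum_le_card_mul_sum_sq (s := Finset.range (L + 1)) (f := a)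
    rw [hsum, Finset.card_range] at this
    push_cast at this
    linarith
  have hmono : ∫ z, Real.exp (-1/2) * ∑ l ∈ Finset.range (L + 1),
      ((lab ⁻¹' {l}).indicator (fun _ => (1:ℝ)) z.1) * ((lab ⁻¹' {l}).indicator (fun _ => (1:ℝ)) z.2)
      ∂(μ.prod μ) ≤ ∫ z, Real.exp (-((z.1.2 - z.2.2) / d) ^ 2 / 2) ∂(μ.prod μ) := by
    have hA1 : ∀ᵐ z ∂(μ.prod μ), z.1 ∈ A := Measure.quasiMeasurePreserving_fst.ae hA
    have hA2 : ∀ᵐ z ∂(μ.prod μ), z.2 ∈ A := Measure.quasiMeasurePreserving_snd.ae hA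
    refine integral_mono_ae ?_ ?_ ?_
    · refine Integrable.const_mul (integrable_finsetSum _ (fun l _ => ?_)) _
      exact (hind l).mul_prod (hind l)
    · refine Integrable.of_bound (by fun_prop) 1 (ae_of_all _ (fun z => ?_))
      rw [Real.norm_eq_abs, Real.abs_exp, Real.exp_le_one_iff]
      have := sq_nonneg ((z.1.2 - z.2.2) / d)
      linarith
    · filter_upwards [hA1, hA2] with z h1 h2
      by_cases h : lab z.1 = lab z.2
      · have h3 : ∑ l ∈ Finset.range (L + 1),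
            ((lab ⁻¹' {l}).indicator (fun _ => (1:ℝ)) z.1) *
              ((lab ⁻¹' {l}).indicator (fun _ => (1:ℝ)) z.2) ≤ 1 := by
          rw [Finset.sum_eq_single (lab z.1)]
          · rw [Set.indicator_of_mem (show z.1 ∈ lab ⁻¹' {lab z.1} from rfl),
              Set.indicator_of_mem (show z.2 ∈ lab ⁻¹' {lab z.1} from h.symm)]
            norm_num
          · intro l _ hl
            rw [Set.indicator_of_notMem, zero_mul]
            intro h
            exact hl (by simpa using h.symm)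
          · intro hn
            exact absurd (Finset.mem_range.2 (Nat.lt_succ_of_le (hL _ h1))) hn
        have h4 : Real.exp (-1/2) ≤ Real.exp (-((z.1.2 - z.2.2) / d) ^ 2 / 2) := by
          apply Real.exp_le_exp.2
          have h5 := hclose _ h1 _ h2 h
          have h6 : ((z.1.2 - z.2.2) / d) ^ 2 ≤ 1 := by
            rw [div_pow, div_le_one (by positivity)]
            rw [← sq_abs (z.1.2 - z.2.2)]
            exact pow_le_pow_left₀ (abs_nonneg _) h5 2
          linarith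
        calc _ ≤ Real.exp (-1/2) * 1 := mul_le_mul_of_nonneg_left h3 (Real.exp_pos _).le
          _ ≤ _ := by rw [mul_one]; exact h4
      · have h3 : ∑ l ∈ Finset.range (L + 1),
            ((lab ⁻¹' {l}).indicator (fun _ => (1:ℝ)) z.1) *
              ((lab ⁻¹' {l}).indicator (fun _ => (1:ℝ)) z.2) = 0 := by
          refine Finset.sum_eq_zero (fun l _ => ?_)
          by_cases h5 : z.1 ∈ lab ⁻¹' {l}
          · rw [Set.indicator_of_notMem (s := lab ⁻¹' {l}) (a := z.2), mul_zero]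
            intro h6
            exact h ((show lab z.1 = l from h5).trans (show lab z.2 = l from h6).symm)
          · rw [Set.indicator_of_notMem h5, zero_mul]
        rw [h3, mul_zero]
        exact (Real.exp_pos _).le
  refine le_trans ?_ hmono
  rw [integral_const_mul, integral_finsetSum _ (fun l _ => (hind l).mul_prod (hind l))]
  have h7 : ∀ l, ∫ z : (ℝ × ℝ) × (ℝ × ℝ), ((lab ⁻¹' {l}).indicator (fun _ => (1:ℝ)) z.1) *
      ((lab ⁻¹' {l}).indicator (fun _ => (1:ℝ)) z.2) ∂(μ.prod μ) = (a l) ^ 2 := by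
    intro l
    rw [integral_prod_mul, sq]
  simp_rw [h7]
  rw [div_le_iff₀ (by positivity)]
  have := Real.exp_pos (-1/2)
  nlinarith

/-- Fourier decay of order `1/4` in the vertical direction forces many labels. -/
theorem energy {μ : Measure (ℝ × ℝ)} [IsProbabilityMeasure μ] {C r : ℝ}
    (hr : 0 < r) (hr1 : r ≤ 1)
    (hdec : ∀ u : ℝ, 1 ≤ |u| → ‖psi μ u‖ ≤ C * |u| ^ (-(1:ℝ)/4))
    {lab : ℝ × ℝ → ℕ} (hlab : Measurable lab) {L : ℕ} {A : Set (ℝ × ℝ)}
    (hA : ∀ᵐ p ∂μ, p ∈ A) (hL : ∀ p ∈ A, lab p ≤ L)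
    (hclose : ∀ p ∈ A, ∀ q ∈ A, lab p = lab q → |p.2 - q.2| ≤ r ^ 4) :
    Real.exp (-1/2) / (L + 1) ≤ 2 * r ^ 2 + C ^ 2 * r :=
  (lower (by positivity) hlab hA hL hclose).trans (upper hr hr1 hdec)

end Pool.Agent.TH968
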