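import Pool.Agent.TH968.Indep
import Pool.Agent.TH968.Energy

set_option autoImplicit false

/-!
# The range of the stable process is too small for Fourier decay along the vertical axis
-/

open MeasureTheory ProbabilityTheory Filter Topology
open scoped ENNReal NNReal

namespace Pool.Agent.TH968

variable {ι : Type}

/-- truncated total variation up to time `t` at scale `l` -/
noncomputable def HH (l t : ℝ) (ω : ι → ℕ × (ℕ → ℝ × ℝ)) : ℝ≥0∞ :=
  tot (fun p => if p.1 ≤ t then min 1 (ENNReal.ofReal (l * |p.2|)) else 0) ω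

theorem HH_mono {l s t : ℝ} (h : s ≤ t) (ω : ι → ℕ × (ℕ → ℝ × ℝ)) : HH l s ω ≤ HH l t ω := by
  unfold HH
  refine tot_mono (fun p => ?_) ω
  by_cases h1 : p.1 ≤ s
  · rw [if_pos h1, if_pos (h1.trans h)]
  · rw [if_neg h1]; exact zero_le

theorem HH_ne_top {l : ℝ} (hl : 0 < l) {ω : ι → ℕ × (ℕ → ℝ × ℝ)} (hω : Gd ω) (t : ℝ) :
    HH l t ω ≠ ∞ := by
  have h1 : HH l t ω ≤ ENNReal.ofReal l * tot (fun p => ENNReal.ofReal |jumpF t p|) ω := by
    unfold HH tot
    rw [← ENNReal.tsum_mul_left]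
    refine ENNReal.tsum_le_tsum (fun j => ?_)
    unfold cellSum
    rw [Finset.mul_sum]
    refine Finset.sum_le_sum (fun i _ => ?_)
    set p := (ω j).2 i
    unfold jumpF
    beta_reduce
    by_cases hp : p.1 ≤ t
    · rw [if_pos hp, if_pos hp, ← ENNReal.ofReal_mul hl.le]
      exact min_le_right _ _
    · rw [if_neg hp]; exact zero_le
  exact ne_top_of_le_ne_top (ENNReal.mul_ne_top ENNReal.ofReal_ne_top (hω t)) h1

theorem incr_le {l : ℝ} (hl : 0 < l) {ω : ι → ℕ × (ℕ → ℝ × ℝ)} (hω : Gd ω) {a b : ℝ}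
    (hab : a ≤ b) (hfl : ⌊(HH l a ω).toReal⌋₊ = ⌊(HH l b ω).toReal⌋₊) :
    |proc b ω - proc a ω| ≤ l⁻¹ := by
  set f : ℝ × ℝ → ℝ≥0∞ := fun p => if a < p.1 ∧ p.1 ≤ b then ENNReal.ofReal (l * |p.2|) else 0
    with hf
  have hmin : ∀ p, min 1 (f p) =
      if a < p.1 ∧ p.1 ≤ b then min 1 (ENNReal.ofReal (l * |p.2|)) else 0 := by
    intro p
    rw [hf]
    by_cases hp : a < p.1 ∧ p.1 ≤ b
    · simp only [if_pos hp]
    · simp only [if_neg hp]; simp
  have hsplit : HH l b ω = HH l a ω + tot (fun p => min 1 (f p)) ω := by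
    unfold HH
    rw [← tot_add]
    congr 1
    ext p
    rw [hmin]
    by_cases h1 : p.1 ≤ a
    · rw [if_pos h1, if_pos (h1.trans hab), if_neg (fun h => absurd h.1 (not_lt.2 h1)), add_zero]
    · by_cases h2 : p.1 ≤ b
      · rw [if_neg h1, if_pos h2, if_pos ⟨not_le.1 h1, h2⟩, zero_add]
      · rw [if_neg h1, if_neg h2, if_neg (fun h => h2 h.2), zero_add]
  have hfa := HH_ne_top hl hω a
  have hfb := HH_ne_top hl hω b
  have hD : tot (fun p => min 1 (f p)) ω ≠ ∞ := by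
    intro h
    rw [h] at hsplit
    exact hfb (by rw [hsplit]; simp)
  have hlt : tot (fun p => min 1 (f p)) ω < 1 := by
    have h1 : (HH l b ω).toReal = (HH l a ω).toReal + (tot (fun p => min 1 (f p)) ω).toReal := by
      rw [hsplit, ENNReal.toReal_add hfa hD]
    have h2 : (HH l b ω).toReal < (HH l a ω).toReal + 1 := by
      calc (HH l b ω).toReal < ⌊(HH l b ω).toReal⌋₊ + 1 := Nat.lt_floor_add_one _
        _ = ⌊(HH l a ω).toReal⌋₊ + 1 := by rw [hfl]
        _ ≤ (HH l a ω).toReal + 1 := by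
          have := Nat.floor_le (ENNReal.toReal_nonneg (a := HH l a ω))
          linarith
    have h3 : (tot (fun p => min 1 (f p)) ω).toReal < 1 := by linarith
    rw [← ENNReal.toReal_one] at h3
    exact (ENNReal.toReal_lt_toReal hD ENNReal.one_ne_top).1 h3
  have htot := tot_eq_of_min_lt_one hlt
  have hdiff : proc b ω - proc a ω = rtot (fun p => jumpF b p - jumpF a p) ω := by
    unfold proc rtot
    rw [← (summable_of_tot (hω b)).tsum_sub (summable_of_tot (hω a))]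
    refine tsum_congr (fun j => ?_)
    unfold cellSum
    rw [Finset.sum_sub_distrib]
  rw [hdiff]
  refine abs_rtot_le (by positivity) ?_
  have h4 : tot (fun p => ENNReal.ofReal |jumpF b p - jumpF a p|) ω
      = ENNReal.ofReal l⁻¹ * tot f ω := by
    unfold tot
    rw [← ENNReal.tsum_mul_left]
    refine tsum_congr (fun j => ?_)
    unfold cellSum
    rw [Finset.mul_sum]
    refine Finset.sum_congr rfl (fun i _ => ?_)
    set p := (ω j).2 i
    beta_reduce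
    rw [jump_diff hab, hf]
    by_cases hp : a < p.1 ∧ p.1 ≤ b
    · rw [Set.indicator_of_mem (show p.1 ∈ Set.Ioc a b from hp)]
      simp only [if_pos hp]
      rw [one_mul, ← ENNReal.ofReal_mul (by positivity)]
      congr 1
      field_simp
    · rw [Set.indicator_of_notMem (show p.1 ∉ Set.Ioc a b from hp)]
      simp only [if_neg hp]
      simp
  rw [h4, htot]
  calc ENNReal.ofReal l⁻¹ * tot (fun p => min 1 (f p)) ω ≤ ENNReal.ofReal l⁻¹ * 1 :=
        mul_le_mul_right hlt.le _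
    _ = ENNReal.ofReal l⁻¹ := mul_one _

theorem ae_bound [Countable ι] {B : ι → Set (ℝ × ℝ)}
    (hB : GoodCells (inten (1/16)) B) : ∀ᵐ ω ∂(prm (inten (1/16)) B),
      ∃ S : ℝ, 0 ≤ S ∧ ∀ K : ℕ, (HH ((65536:ℝ) ^ K) 1 ω).toReal ≤ S * 4 ^ K := by
  have hm : ∀ K : ℕ, Measurable (fun ω : ι → ℕ × (ℕ → ℝ × ℝ) =>
      ENNReal.ofReal ((1/4 : ℝ) ^ K) * HH ((65536:ℝ) ^ K) 1 ω) := fun K =>
    (measurable_tot (measurable_weight _ _)).const_mul _
  have hW : ∫⁻ ω, ∑' K : ℕ, ENNReal.ofReal ((1/4 : ℝ) ^ K) * HH ((65536:ℝ) ^ K) 1 ω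
      ∂(prm (inten (1/16)) B) ≠ ∞ := by
    rw [lintegral_tsum (fun K => (hm K).aemeasurable)]
    have h1 : ∀ K : ℕ, ∫⁻ ω, ENNReal.ofReal ((1/4 : ℝ) ^ K) * HH ((65536:ℝ) ^ K) 1 ω
      ∂(prm (inten (1/16)) B) = ENNReal.ofReal ((1/2 : ℝ) ^ K) * m1 (1/16) := by
      intro K
      unfold HH
      rw [lintegral_const_mul _ (measurable_tot (measurable_weight _ _))]
      rw [hB.campbell (measurable_weight _ _), lint_weight _ zero_le_one (by positivity),
        ENNReal.ofReal_one, one_mul, ← mul_assoc, ← ENNReal.ofReal_mul (by positivity)]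
      congr 2
      have : ((65536:ℝ) ^ K) ^ ((1:ℝ)/16) = 2 ^ K := by
        have h65 : (65536 : ℝ) = 2 ^ 16 := by norm_num
        rw [h65, ← pow_mul, mul_comm, pow_mul, ← Real.rpow_natCast ((2:ℝ)^K) 16,
          ← Real.rpow_mul (by positivity)]
        norm_num
      rw [this, ← mul_pow]
      norm_num
    simp_rw [h1]
    rw [ENNReal.tsum_mul_right]
    refine ENNReal.mul_ne_top ?_ (m1_lt_top (by norm_num) (by norm_num)).ne
    rw [← ENNReal.ofReal_tsum_of_nonneg (fun n => by positivity)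
      (summable_geometric_of_lt_one (by norm_num) (by norm_num))]
    exact ENNReal.ofReal_ne_top
  have h2 := ae_lt_top (Measurable.tsum hm) hW
  filter_upwards [h2] with ω hω
  refine ⟨(∑' K : ℕ, ENNReal.ofReal ((1/4 : ℝ) ^ K) * HH ((65536:ℝ) ^ K) 1 ω).toReal,
    ENNReal.toReal_nonneg, fun K => ?_⟩
  have h3 : ENNReal.ofReal ((1/4 : ℝ) ^ K) * HH ((65536:ℝ) ^ K) 1 ω ≤
      ∑' K : ℕ, ENNReal.ofReal ((1/4 : ℝ) ^ K) * HH ((65536:ℝ) ^ K) 1 ω :=
    ENNReal.le_tsum K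
  have h4 := ENNReal.toReal_mono hω.ne h3
  rw [ENNReal.toReal_mul, ENNReal.toReal_ofReal (by positivity)] at h4
  have h5 : (1/4 : ℝ) ^ K * 4 ^ K = 1 := by rw [← mul_pow]; norm_num
  have h6 : (0:ℝ) < 4 ^ K := by positivity
  calc (HH ((65536:ℝ) ^ K) 1 ω).toReal
      = ((1/4 : ℝ) ^ K * (HH ((65536:ℝ) ^ K) 1 ω).toReal) * 4 ^ K := by
        rw [mul_comm ((1/4 : ℝ) ^ K), mul_assoc, h5, mul_one]
    _ ≤ _ := mul_le_mul_of_nonneg_right h4 h6.le

theorem no_measure {ω : ι → ℕ × (ℕ → ℝ × ℝ)} (hω : Gd ω) {S : ℝ} (hS : 0 ≤ S)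
    (hH : ∀ K : ℕ, (HH ((65536:ℝ) ^ K) 1 ω).toReal ≤ S * 4 ^ K)
    (μ : Measure (ℝ × ℝ)) [IsProbabilityMeasure μ] (A : Set (ℝ × ℝ))
    (hA : A ⊆ {p : ℝ × ℝ | p.1 ∈ Set.Icc (0 : ℝ) 1 ∧ p.2 = proc p.1 ω}) (hμ : μ Aᶜ = 0)
    (C : ℝ) (hC : ∀ u : ℝ, 1 ≤ |u| → ‖psi μ u‖ ≤ C * |u| ^ (-(1:ℝ)/4)) : False := by
  have key : ∀ K : ℕ, Real.exp (-1/2) ≤ (S + 1) * (2 + C ^ 2) * (1/4) ^ K := by
    intro K
    set l : ℝ := (65536:ℝ) ^ K with hl
    have hl0 : 0 < l := by positivity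
    set r : ℝ := (1/16 : ℝ) ^ K with hr
    have hr0 : 0 < r := by positivity
    have hr1 : r ≤ 1 := pow_le_one₀ (by norm_num) (by norm_num)
    have hlr : l⁻¹ = r ^ 4 := by
      rw [hl, hr, ← inv_pow, ← pow_mul, mul_comm, pow_mul]
      norm_num
    have hmono : Monotone (fun t : ℝ => (HH l t ω).toReal) := fun s t hst =>
      ENNReal.toReal_mono (HH_ne_top hl0 hω t) (HH_mono hst ω)
    have hlab : Measurable (fun p : ℝ × ℝ => ⌊(HH l p.1 ω).toReal⌋₊) :=
      Nat.measurable_floor.comp (hmono.measurable.comp measurable_fst)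
    have hfin := energy (μ := μ) (C := C) (r := r) hr0 hr1 hC
      (lab := fun p : ℝ × ℝ => ⌊(HH l p.1 ω).toReal⌋₊) hlab (L := ⌊S * 4 ^ K⌋₊) (A := A)
      (by rw [ae_iff]; exact hμ)
      (by
        intro p hp
        have h1 := (hA hp).1
        exact Nat.floor_le_floor ((hmono h1.2).trans (hH K)))
      (by
        intro p hp q hq hpq
        have h1 := hA hp
        have h2 := hA hq
        rw [h1.2, h2.2, ← hlr]
        rcases le_total p.1 q.1 with h | h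
        · rw [abs_sub_comm]
          exact incr_le hl0 hω h hpq
        · exact incr_le hl0 hω h hpq.symm)
    have hL : ((⌊S * 4 ^ K⌋₊ : ℝ) + 1) ≤ (S + 1) * 4 ^ K := by
      have h1 : (⌊S * 4 ^ K⌋₊ : ℝ) ≤ S * 4 ^ K := Nat.floor_le (by positivity)
      have h2 : (1 : ℝ) ≤ 4 ^ K := one_le_pow₀ (by norm_num)
      linarith
    rw [div_le_iff₀ (by positivity)] at hfin
    have h3 : 2 * r ^ 2 + C ^ 2 * r ≤ (2 + C ^ 2) * r := by nlinarith [sq_nonneg C]
    calc Real.exp (-1/2) ≤ (2 * r ^ 2 + C ^ 2 * r) * ((⌊S * 4 ^ K⌋₊ : ℝ) + 1) := hfin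
      _ ≤ ((2 + C ^ 2) * r) * ((S + 1) * 4 ^ K) := by
          apply mul_le_mul h3 hL (by positivity) (by positivity)
      _ = (S + 1) * (2 + C ^ 2) * (r * 4 ^ K) := by ring
      _ = (S + 1) * (2 + C ^ 2) * (1/4) ^ K := by
          rw [hr, ← mul_pow]; norm_num
  have hlim : Tendsto (fun K : ℕ => (S + 1) * (2 + C ^ 2) * (1/4 : ℝ) ^ K) atTop (𝓝 0) := by
    have := (tendsto_pow_atTop_nhds_zero_of_lt_one (r := (1/4 : ℝ)) (by norm_num)
      (by norm_num)).const_mul ((S + 1) * (2 + C ^ 2))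
    simpa using this
  have := ge_of_tendsto' hlim key
  exact absurd this (not_le.2 (Real.exp_pos _))

end Pool.Agent.TH968
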