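import Pool.Agent.TH968.PRM

set_option autoImplicit false

/-!
# Exponential formula for Poisson random measures
-/

open MeasureTheory ProbabilityTheory Filter Topology
open scoped ENNReal NNReal

namespace Pool.Agent.TH968

variable {E : Type} [MeasurableSpace E] {ι : Type}

theorem cellSum_abs_le (f : E → ℝ) (c : ℕ × (ℕ → E)) :
    ‖cellSum f c‖ₑ ≤ cellSum (fun x => ENNReal.ofReal |f x|) c := by
  unfold cellSum
  refine (enorm_sum_le _ _).trans (Finset.sum_le_sum (fun i _ => ?_))
  rw [Real.enorm_eq_ofReal_abs]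

theorem summable_of_tot {f : E → ℝ} {ω : ι → ℕ × (ℕ → E)}
    (h : tot (fun x => ENNReal.ofReal |f x|) ω ≠ ∞) :
    Summable (fun j => cellSum f (ω j)) := by
  apply Summable.of_enorm
  exact ne_top_of_le_ne_top h (ENNReal.tsum_le_tsum (fun j => cellSum_abs_le f (ω j)))

theorem cell_exp (F : E → ℝ) (c : ℕ × (ℕ → E)) :
    ∏ i ∈ Finset.range c.1, Complex.exp ((F (c.2 i) : ℂ) * Complex.I)
      = Complex.exp ((cellSum F c : ℝ) * Complex.I) := by
  unfold cellSum
  rw [← Complex.exp_sum]
  push_cast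
  rw [Finset.sum_mul]

theorem GoodCells.integral_prod {M : Measure E} {B : ι → Set E} (hB : GoodCells M B)
    {h : E → ℂ} (hh : Measurable h) (h1 : ∀ x, ‖h x‖ ≤ 1) (J : Finset ι) :
    ∫ ω, ∏ j ∈ J, ∏ i ∈ Finset.range (ω j).1, h ((ω j).2 i) ∂(prm M B)
      = ∏ j ∈ J, Complex.exp ((M (B j)).toNNReal * ((∫ x, h x ∂(ProbabilityTheory.cond M (B j))) - 1)) := by
  have := hB.prob
  have key := integral_restrict_infinitePi
    (μ := fun j => cellLaw (M (B j)).toNNReal (ProbabilityTheory.cond M (B j))) (s := J)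
    (f := fun y : ((j : J) → ℕ × (ℕ → E)) => ∏ j, ∏ i ∈ Finset.range (y j).1, h ((y j).2 i))
    ((Finset.measurable_prod _ (fun j _ =>
      (measurable_cellProd hh).comp (measurable_pi_apply j))).aestronglyMeasurable)
  have h2 : ∀ ω : ι → ℕ × (ℕ → E), ∏ j ∈ J, ∏ i ∈ Finset.range (ω j).1, h ((ω j).2 i)
      = ∏ j : J, ∏ i ∈ Finset.range (J.restrict ω j).1, h ((J.restrict ω j).2 i) := by
    intro y
    rw [← Finset.prod_coe_sort]
    rfl
  unfold prm
  simp_rw [h2]
  rw [key, integral_fintype_prod_eq_prod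
    (f := fun (j : J) (c : ℕ × (ℕ → E)) => ∏ i ∈ Finset.range c.1, h (c.2 i))]
  simp_rw [integral_cell hh h1]
  rw [Finset.prod_coe_sort J (fun j => Complex.exp ((M (B j)).toNNReal *
    ((∫ x, h x ∂(ProbabilityTheory.cond M (B j))) - 1)))]

theorem GoodCells.cell_integral {M : Measure E} {B : ι → Set E} (hB : GoodCells M B)
    {F : E → ℝ} (hF : Measurable F) (j : ι) :
    (((M (B j)).toNNReal : ℝ) : ℂ) * ((∫ x, Complex.exp ((F x : ℂ) * Complex.I)
        ∂(ProbabilityTheory.cond M (B j))) - 1)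
      = ∫ x in B j, (Complex.exp ((F x : ℂ) * Complex.I) - 1) ∂M := by
  have := hB.prob j
  have hint : Integrable (fun x => Complex.exp ((F x : ℂ) * Complex.I))
      (ProbabilityTheory.cond M (B j)) := by
    refine Integrable.of_bound (by fun_prop) 1 (ae_of_all _ (fun x => ?_))
    rw [Complex.norm_exp_ofReal_mul_I]
  have h1 : (∫ x, Complex.exp ((F x : ℂ) * Complex.I) ∂(ProbabilityTheory.cond M (B j))) - 1
      = ∫ x, (Complex.exp ((F x : ℂ) * Complex.I) - 1) ∂(ProbabilityTheory.cond M (B j)) := by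
    rw [integral_sub hint (integrable_const _)]
    simp
  rw [h1, ProbabilityTheory.cond, integral_smul_measure]
  rw [Complex.real_smul, ← mul_assoc]
  have h3 : ((((M (B j)).toNNReal : ℝ) : ℂ)) * (((M (B j))⁻¹.toReal : ℝ) : ℂ) = 1 := by
    rw [← Complex.ofReal_mul, ENNReal.toReal_inv]
    have : ((M (B j)).toNNReal : ℝ) = (M (B j)).toReal := rfl
    rw [this, mul_inv_cancel₀, Complex.ofReal_one]
    exact (ENNReal.toReal_pos (hB.ne_zero j) (hB.ne_top j)).ne'
  rw [h3, one_mul]

/-- The exponential formula. -/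
theorem GoodCells.exp_formula [Countable ι] {M : Measure E} {B : ι → Set E} (hB : GoodCells M B)
    {F : E → ℝ} (hF : Measurable F)
    (hfin : ∀ᵐ ω ∂(prm M B), tot (fun x => ENNReal.ofReal |F x|) ω ≠ ∞)
    (hI : Integrable (fun x => Complex.exp ((F x : ℂ) * Complex.I) - 1) M) :
    ∫ ω, Complex.exp ((rtot F ω : ℝ) * Complex.I) ∂(prm M B)
      = Complex.exp (∫ x, (Complex.exp ((F x : ℂ) * Complex.I) - 1) ∂M) := by
  have := hB.prob
  have := hB.prm_prob
  have hM : M = M.restrict (⋃ j, B j) := by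
    symm
    apply Measure.restrict_eq_self_of_ae_mem
    rw [ae_iff]
    exact hB.cover
  have hh : Measurable (fun x => Complex.exp ((F x : ℂ) * Complex.I)) := by fun_prop
  have h1 : ∀ x, ‖Complex.exp ((F x : ℂ) * Complex.I)‖ ≤ 1 := fun x => by
    rw [Complex.norm_exp_ofReal_mul_I]
  -- first limit
  have lim1 : Tendsto (fun J : Finset ι =>
      ∫ ω, ∏ j ∈ J, ∏ i ∈ Finset.range (ω j).1, Complex.exp ((F ((ω j).2 i) : ℂ) * Complex.I)
        ∂(prm M B)) atTop
      (𝓝 (∫ ω, Complex.exp ((rtot F ω : ℝ) * Complex.I) ∂(prm M B))) := by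
    refine tendsto_integral_filter_of_dominated_convergence (fun _ => (1 : ℝ)) ?_ ?_ ?_ ?_
    · refine Eventually.of_forall (fun J => ?_)
      refine (Finset.measurable_prod _ (fun j _ => ?_)).aestronglyMeasurable
      exact (measurable_cellProd hh).comp (measurable_pi_apply j)
    · refine Eventually.of_forall (fun J => ae_of_all _ (fun ω => ?_))
      rw [norm_prod]
      refine Finset.prod_le_one (fun _ _ => norm_nonneg _) (fun j _ => ?_)
      rw [norm_prod]
      exact Finset.prod_le_one (fun _ _ => norm_nonneg _) (fun i _ => h1 _)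
    · exact integrable_const _
    · filter_upwards [hfin] with ω hω
      have hs := (summable_of_tot hω).hasSum
      have h3 : ∀ J : Finset ι, ∏ j ∈ J, ∏ i ∈ Finset.range (ω j).1,
          Complex.exp ((F ((ω j).2 i) : ℂ) * Complex.I)
          = Complex.exp (((∑ j ∈ J, cellSum F (ω j) : ℝ) : ℂ) * Complex.I) := by
        intro J
        simp_rw [cell_exp]
        rw [← Complex.exp_sum]
        push_cast
        rw [Finset.sum_mul]
      simp_rw [h3]
      have h4 : Tendsto (fun J : Finset ι => ∑ j ∈ J, cellSum F (ω j)) atTop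
        (𝓝 (rtot F ω)) := hs
      have h5 : Continuous (fun y : ℝ => Complex.exp ((y : ℂ) * Complex.I)) := by fun_prop
      exact (h5.tendsto _).comp h4
  have lim2 : Tendsto (fun J : Finset ι =>
      ∫ ω, ∏ j ∈ J, ∏ i ∈ Finset.range (ω j).1, Complex.exp ((F ((ω j).2 i) : ℂ) * Complex.I)
        ∂(prm M B)) atTop
      (𝓝 (Complex.exp (∫ x, (Complex.exp ((F x : ℂ) * Complex.I) - 1) ∂M))) := by
    have h3 : ∀ J : Finset ι,
        ∫ ω, ∏ j ∈ J, ∏ i ∈ Finset.range (ω j).1, Complex.exp ((F ((ω j).2 i) : ℂ) * Complex.I)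
        ∂(prm M B) = Complex.exp (∑ j ∈ J, ∫ x in B j, (Complex.exp ((F x : ℂ) * Complex.I) - 1) ∂M) := by
      intro J
      rw [hB.integral_prod hh h1 J, Complex.exp_sum]
      refine Finset.prod_congr rfl (fun j _ => ?_)
      rw [← hB.cell_integral hF j]
    simp_rw [h3]
    refine (Complex.continuous_exp.tendsto _).comp ?_
    have h4 := hasSum_integral_iUnion (μ := M) hB.meas hB.disj
      (f := fun x => Complex.exp ((F x : ℂ) * Complex.I) - 1) hI.integrableOn
    rw [← hM] at h4
    exact h4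
  exact tendsto_nhds_unique lim1 lim2

end Pool.Agent.TH968
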