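import Pool.Agent.TH968.Joint

set_option autoImplicit false

/-!
# Independence and stationarity of the increments
-/

open MeasureTheory ProbabilityTheory Filter Topology
open scoped ENNReal NNReal

namespace Pool.Agent.TH968

variable {ι : Type}

theorem incr_char [Countable ι] {α : ℝ} (h0 : 0 < α) (h1 : α < 1) {B : ι → Set (ℝ × ℝ)}
    (hB : GoodCells (inten α) B) {s t : ℝ} (hs : 0 ≤ s) (hst : s ≤ t) (ξ : ℝ) :
    ∫ ω, Complex.exp (((ξ * (proc t ω - proc s ω) : ℝ) : ℂ) * Complex.I) ∂(prm (inten α) B)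
      = ((Real.exp (-(t - s) * |ξ| ^ α) : ℝ) : ℂ) := by
  have hmono : Monotone (![s, t] : Fin 2 → ℝ) := by
    intro i j hij
    fin_cases i <;> fin_cases j <;> simp_all
  have h := joint_char h0 h1 hB (n := 1) (t := ![s, t]) hmono (by simpa using hs) (fun _ => ξ)
  simp only [Finset.univ_unique, Fin.default_eq_zero, Finset.sum_singleton] at h
  have e1 : (![s, t] : Fin 2 → ℝ) (Fin.succ 0) = t := rfl
  have e2 : (![s, t] : Fin 2 → ℝ) (Fin.castSucc 0) = s := rfl
  rw [e1, e2] at h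
  rw [h]
  congr 2
  ring

theorem indep_incr [Countable ι] {α : ℝ} (h0 : 0 < α) (h1 : α < 1) {B : ι → Set (ℝ × ℝ)}
    (hB : GoodCells (inten α) B) {n : ℕ} {t : Fin (n + 1) → ℝ} (ht0 : 0 ≤ t 0) (ht : Monotone t) :
    iIndepFun (fun (i : Fin n) (ω : ι → ℕ × (ℕ → ℝ × ℝ)) =>
      proc (t i.succ) ω - proc (t i.castSucc) ω) (prm (inten α) B) := by
  have := hB.prm_prob
  have hmeas : ∀ i : Fin n, Measurable (fun (ω : ι → ℕ × (ℕ → ℝ × ℝ)) =>
      proc (t i.succ) ω - proc (t i.castSucc) ω) :=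
    fun i => (measurable_proc _).sub (measurable_proc _)
  rw [iIndepFun_iff_charFun_pi (fun i => (hmeas i).aemeasurable)]
  intro ξ
  have hjm : Measurable (fun (ω : ι → ℕ × (ℕ → ℝ × ℝ)) =>
      (WithLp.toLp 2 (fun i : Fin n => proc (t i.succ) ω - proc (t i.castSucc) ω))) :=
    (WithLp.measurable_toLp 2 _).comp (measurable_pi_lambda _ hmeas)
  rw [charFun_apply, integral_map hjm.aemeasurable (by fun_prop)]
  have e1 : ∀ ω : ι → ℕ × (ℕ → ℝ × ℝ),
      (inner ℝ (WithLp.toLp 2 (fun i : Fin n => proc (t i.succ) ω - proc (t i.castSucc) ω)) ξ : ℝ)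
      = ∑ i, ξ i * (proc (t i.succ) ω - proc (t i.castSucc) ω) := by
    intro ω
    rw [PiLp.inner_apply]
    refine Finset.sum_congr rfl (fun i _ => ?_)
    simp [mul_comm]
  simp_rw [e1]
  rw [joint_char h0 h1 hB ht ht0 (fun i => ξ i)]
  have e2 : ∀ i : Fin n, charFun ((prm (inten α) B).map (fun ω =>
      proc (t i.succ) ω - proc (t i.castSucc) ω)) (ξ i)
      = ((Real.exp (-(t i.succ - t i.castSucc) * |ξ i| ^ α) : ℝ) : ℂ) := by
    intro i
    rw [charFun_apply, integral_map (hmeas i).aemeasurable (by fun_prop)]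
    rw [← incr_char h0 h1 hB (ht0.trans (ht (Fin.zero_le _))) (ht (Fin.castSucc_lt_succ).le) (ξ i)]
    congr 1
  simp_rw [e2]
  rw [← Complex.ofReal_prod, ← Real.exp_sum]
  congr 2
  rw [← Finset.sum_neg_distrib]
  refine Finset.sum_congr rfl (fun i _ => ?_)
  ring

end Pool.Agent.TH968
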