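import Pool.Agent.TH968.Stable

set_option autoImplicit false

/-!
# Joint characteristic function of the increments
-/

open MeasureTheory ProbabilityTheory Filter Topology
open scoped ENNReal NNReal

namespace Pool.Agent.TH968

variable {ι : Type}

/-- the step function attached to times `t` and frequencies `ξ` -/
noncomputable def stepG {n : ℕ} (t : Fin (n + 1) → ℝ) (ξ : Fin n → ℝ) (s : ℝ) : ℝ :=
  ∑ i, ξ i * (Set.Ioc (t i.castSucc) (t i.succ)).indicator (fun _ => (1 : ℝ)) s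

theorem measurable_stepG {n : ℕ} (t : Fin (n + 1) → ℝ) (ξ : Fin n → ℝ) :
    Measurable (stepG t ξ) := by
  unfold stepG
  refine Finset.measurable_sum _ (fun i _ => ?_)
  exact (measurable_const.indicator measurableSet_Ioc).const_mul _

theorem hasSum_proc {ω : ι → ℕ × (ℕ → ℝ × ℝ)} (hω : Gd ω) (t : ℝ) :
    HasSum (fun j => cellSum (jumpF t) (ω j)) (proc t ω) :=
  (summable_of_tot (hω t)).hasSum

theorem jump_diff {a b : ℝ} (hab : a ≤ b) (p : ℝ × ℝ) :
    jumpF b p - jumpF a p = (Set.Ioc a b).indicator (fun _ => (1 : ℝ)) p.1 * p.2 := by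
  unfold jumpF
  by_cases h1 : p.1 ≤ a
  · rw [if_pos h1, if_pos (h1.trans hab), Set.indicator_of_notMem (by simp [h1])]
    simp
  · by_cases h2 : p.1 ≤ b
    · rw [if_neg h1, if_pos h2, Set.indicator_of_mem (show p.1 ∈ Set.Ioc a b from ⟨not_le.1 h1, h2⟩)]
      simp
    · rw [if_neg h1, if_neg h2, Set.indicator_of_notMem (by simp [h2])]
      simp

theorem sum_incr {n : ℕ} {t : Fin (n + 1) → ℝ} (ht : Monotone t) (ξ : Fin n → ℝ)
    {ω : ι → ℕ × (ℕ → ℝ × ℝ)} (hω : Gd ω) :
    ∑ i, ξ i * (proc (t i.succ) ω - proc (t i.castSucc) ω)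
      = rtot (fun p : ℝ × ℝ => stepG t ξ p.1 * p.2) ω := by
  have h1 : HasSum (fun j => ∑ i, ξ i * (cellSum (jumpF (t i.succ)) (ω j)
      - cellSum (jumpF (t i.castSucc)) (ω j)))
      (∑ i, ξ i * (proc (t i.succ) ω - proc (t i.castSucc) ω)) := by
    refine hasSum_sum (fun i _ => ?_)
    exact ((hasSum_proc hω _).sub (hasSum_proc hω _)).mul_left _
  unfold rtot
  rw [← h1.tsum_eq]
  refine tsum_congr (fun j => ?_)
  unfold cellSum
  simp_rw [← Finset.sum_sub_distrib, Finset.mul_sum]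
  rw [Finset.sum_comm]
  refine Finset.sum_congr rfl (fun k _ => ?_)
  unfold stepG
  rw [Finset.sum_mul]
  refine Finset.sum_congr rfl (fun i _ => ?_)
  rw [jump_diff (ht (Fin.castSucc_lt_succ).le), mul_assoc]

theorem abs_stepG_le {n : ℕ} (t : Fin (n + 1) → ℝ) (ξ : Fin n → ℝ) (s : ℝ) :
    |stepG t ξ s| ≤ ∑ i, |ξ i| := by
  unfold stepG
  refine (Finset.abs_sum_le_sum_abs _ _).trans (Finset.sum_le_sum (fun i _ => ?_))
  rw [abs_mul]
  have : |(Set.Ioc (t i.castSucc) (t i.succ)).indicator (fun _ => (1 : ℝ)) s| ≤ 1 := by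
    by_cases h : s ∈ Set.Ioc (t i.castSucc) (t i.succ)
    · rw [Set.indicator_of_mem h]; simp
    · rw [Set.indicator_of_notMem h]; simp
  nlinarith [abs_nonneg (ξ i)]

theorem stepG_zero {n : ℕ} {t : Fin (n + 1) → ℝ} (ht : Monotone t) (ξ : Fin n → ℝ) {s : ℝ}
    (hs : t (Fin.last n) < s) : stepG t ξ s = 0 := by
  unfold stepG
  refine Finset.sum_eq_zero (fun i _ => ?_)
  rw [Set.indicator_of_notMem, mul_zero]
  intro h
  exact absurd h.2 (not_le.2 (lt_of_le_of_lt (ht (Fin.le_last _)) hs))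

theorem abs_stepG_rpow {n : ℕ} {t : Fin (n + 1) → ℝ} (ht : Monotone t) (ξ : Fin n → ℝ)
    {α : ℝ} (h0 : 0 < α) (s : ℝ) :
    |stepG t ξ s| ^ α = ∑ i, |ξ i| ^ α *
      (Set.Ioc (t i.castSucc) (t i.succ)).indicator (fun _ => (1 : ℝ)) s := by
  classical
  by_cases h : ∃ i0 : Fin n, s ∈ Set.Ioc (t i0.castSucc) (t i0.succ)
  · obtain ⟨i0, hi0⟩ := h
    have huniq : ∀ i : Fin n, i ≠ i0 → s ∉ Set.Ioc (t i.castSucc) (t i.succ) := by
      intro i hi hmem
      rcases lt_or_gt_of_ne hi with hlt | hgt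
      · have : t i.succ ≤ t i0.castSucc := ht (by
          rw [Fin.le_iff_val_le_val]; simp; omega)
        exact absurd hmem.2 (not_le.2 (lt_of_le_of_lt this hi0.1))
      · have : t i0.succ ≤ t i.castSucc := ht (by
          rw [Fin.le_iff_val_le_val]; simp; omega)
        exact absurd hmem.1 (not_lt.2 (hi0.2.trans this))
    unfold stepG
    rw [Finset.sum_eq_single i0, Finset.sum_eq_single i0]
    · rw [Set.indicator_of_mem hi0, mul_one, mul_one]
    · intro i _ hi
      rw [Set.indicator_of_notMem (huniq i hi), mul_zero]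
    · intro h; exact absurd (Finset.mem_univ _) h
    · intro i _ hi
      rw [Set.indicator_of_notMem (huniq i hi), mul_zero]
    · intro h; exact absurd (Finset.mem_univ _) h
  · have h' : ∀ i : Fin n, s ∉ Set.Ioc (t i.castSucc) (t i.succ) := fun i hi => h ⟨i, hi⟩
    unfold stepG
    rw [Finset.sum_eq_zero (fun i _ => by rw [Set.indicator_of_notMem (h' i), mul_zero]),
      Finset.sum_eq_zero (fun i _ => by rw [Set.indicator_of_notMem (h' i), mul_zero])]
    simp [h0.ne']

theorem integral_stepG {n : ℕ} {t : Fin (n + 1) → ℝ} (ht : Monotone t) (ht0 : 0 ≤ t 0)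
    (ξ : Fin n → ℝ) {α : ℝ} (h0 : 0 < α) :
    ∫ s in Set.Ici (0 : ℝ), |stepG t ξ s| ^ α = ∑ i, |ξ i| ^ α * (t i.succ - t i.castSucc) := by
  simp_rw [abs_stepG_rpow ht ξ h0]
  rw [integral_finsetSum]
  · refine Finset.sum_congr rfl (fun i _ => ?_)
    rw [integral_const_mul]
    congr 1
    rw [setIntegral_indicator measurableSet_Ioc]
    have h2 : Set.Ici (0 : ℝ) ∩ Set.Ioc (t i.castSucc) (t i.succ)
        = Set.Ioc (t i.castSucc) (t i.succ) := by
      apply Set.inter_eq_right.2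
      intro x hx
      exact (ht0.trans (ht (Fin.zero_le _))).trans hx.1.le
    rw [h2]
    have h3 := ht (Fin.castSucc_lt_succ (i := i)).le
    simp [h3]
  · intro i _
    refine Integrable.const_mul ?_ _
    refine Integrable.mono_measure ?_ Measure.restrict_le_self
    rw [integrable_indicator_iff measurableSet_Ioc]
    exact integrableOn_const (by simp)

theorem integrable_step {n : ℕ} {t : Fin (n + 1) → ℝ} (ht : Monotone t) (ht0 : 0 ≤ t 0)
    (ξ : Fin n → ℝ) {α : ℝ} (h0 : 0 < α) (h1 : α < 1) :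
    Integrable (fun p : ℝ × ℝ =>
      Complex.exp (((stepG t ξ p.1 * p.2 : ℝ) : ℂ) * Complex.I) - 1) (inten α) := by
  have hm := measurable_stepG t ξ
  refine ⟨Measurable.aestronglyMeasurable (by fun_prop), ?_⟩
  set C : ℝ := ∑ i, |ξ i| with hC
  have hC0 : 0 ≤ C := Finset.sum_nonneg (fun i _ => abs_nonneg _)
  have hle : ∀ p : ℝ × ℝ, ‖Complex.exp (((stepG t ξ p.1 * p.2 : ℝ) : ℂ) * Complex.I) - 1‖ₑ
      ≤ ENNReal.ofReal (2 * (1 + C)) *
        (if p.1 ≤ t (Fin.last n) then min 1 (ENNReal.ofReal (1 * |p.2|)) else 0) := by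
    intro p
    by_cases hp : p.1 ≤ t (Fin.last n)
    · rw [if_pos hp, one_mul]
      rw [← ofReal_norm]
      have e1 : min 1 (ENNReal.ofReal |p.2|) = ENNReal.ofReal (min 1 |p.2|) := by
        rw [ENNReal.ofReal_min, ENNReal.ofReal_one]
      rw [e1, ← ENNReal.ofReal_mul (by positivity)]
      apply ENNReal.ofReal_le_ofReal
      refine (abs_sub_exp_le _).trans ?_
      have hg := abs_stepG_le t ξ p.1
      rw [← hC] at hg
      have h2 : min 1 |stepG t ξ p.1 * p.2| ≤ (1 + C) * min 1 |p.2| := by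
        rcases le_total 1 |p.2| with h | h
        · rw [min_eq_left h]
          exact (min_le_left _ _).trans (by linarith)
        · rw [min_eq_right h]
          refine (min_le_right _ _).trans ?_
          rw [abs_mul]
          nlinarith [abs_nonneg (stepG t ξ p.1), abs_nonneg p.2]
      calc 2 * min 1 |stepG t ξ p.1 * p.2| ≤ 2 * ((1 + C) * min 1 |p.2|) := by linarith
        _ = 2 * (1 + C) * min 1 |p.2| := by ring
    · rw [if_neg hp, mul_zero, stepG_zero ht ξ (not_le.1 hp)]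
      simp
  refine lt_of_le_of_lt (lintegral_mono hle) ?_
  rw [lintegral_const_mul _ (measurable_weight _ _),
    lint_weight α (ht0.trans (ht (Fin.zero_le _))) one_pos]
  exact ENNReal.mul_lt_top ENNReal.ofReal_lt_top (ENNReal.mul_lt_top ENNReal.ofReal_lt_top
    (ENNReal.mul_lt_top ENNReal.ofReal_lt_top (m1_lt_top h0 h1)))

theorem joint_char [Countable ι] {α : ℝ} (h0 : 0 < α) (h1 : α < 1) {B : ι → Set (ℝ × ℝ)}
    (hB : GoodCells (inten α) B) {n : ℕ} {t : Fin (n + 1) → ℝ} (ht : Monotone t) (ht0 : 0 ≤ t 0)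
    (ξ : Fin n → ℝ) :
    ∫ ω, Complex.exp (((∑ i, ξ i * (proc (t i.succ) ω - proc (t i.castSucc) ω) : ℝ) : ℂ)
        * Complex.I) ∂(prm (inten α) B)
      = ((Real.exp (-∑ i, |ξ i| ^ α * (t i.succ - t i.castSucc)) : ℝ) : ℂ) := by
  have hg := ae_good h0 h1 hB
  have hm := measurable_stepG t ξ
  have e1 : ∫ ω, Complex.exp (((∑ i, ξ i * (proc (t i.succ) ω - proc (t i.castSucc) ω) : ℝ) : ℂ)
        * Complex.I) ∂(prm (inten α) B)
      = ∫ ω, Complex.exp (((rtot (fun p : ℝ × ℝ => stepG t ξ p.1 * p.2) ω : ℝ) : ℂ)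
        * Complex.I) ∂(prm (inten α) B) := by
    refine integral_congr_ae ?_
    filter_upwards [hg] with ω hω
    rw [sum_incr ht ξ hω]
  rw [e1, hB.exp_formula (F := fun p : ℝ × ℝ => stepG t ξ p.1 * p.2) (by fun_prop) ?_
    (integrable_step ht ht0 ξ h0 h1)]
  · have e2 : ∫ p, (Complex.exp (((stepG t ξ p.1 * p.2 : ℝ) : ℂ) * Complex.I) - 1) ∂(inten α)
        = ((-∑ i, |ξ i| ^ α * (t i.succ - t i.castSucc) : ℝ) : ℂ) := by
      have hI := integrable_step ht ht0 ξ h0 h1
      unfold inten at hI ⊢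
      rw [integral_prod _ hI]
      simp_rw [lev_exp h0 h1]
      rw [integral_complex_ofReal, integral_neg, integral_stepG ht ht0 ξ h0]
    rw [e2, Complex.ofReal_exp]
  · filter_upwards [hg] with ω hω
    set C : ℝ := ∑ i, |ξ i| with hC
    have hC0 : 0 ≤ C := Finset.sum_nonneg (fun i _ => abs_nonneg _)
    have h3 : tot (fun p => ENNReal.ofReal |stepG t ξ p.1 * p.2|) ω ≤
        ENNReal.ofReal C * tot (fun p => ENNReal.ofReal |jumpF (t (Fin.last n)) p|) ω := by
      unfold tot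
      rw [← ENNReal.tsum_mul_left]
      refine ENNReal.tsum_le_tsum (fun j => ?_)
      unfold cellSum
      rw [Finset.mul_sum]
      refine Finset.sum_le_sum (fun i _ => ?_)
      rw [← ENNReal.ofReal_mul hC0]
      apply ENNReal.ofReal_le_ofReal
      set p := (ω j).2 i
      rw [abs_mul]
      unfold jumpF
      by_cases hp : p.1 ≤ t (Fin.last n)
      · rw [if_pos hp]
        exact mul_le_mul_of_nonneg_right (abs_stepG_le t ξ p.1) (abs_nonneg _)
      · rw [if_neg hp, stepG_zero ht ξ (not_le.1 hp)]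
        simp
    exact ne_top_of_le_ne_top (ENNReal.mul_ne_top ENNReal.ofReal_ne_top (hω _)) h3

end Pool.Agent.TH968
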