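import Mathlib

set_option autoImplicit false

/-!
# The symmetric stable Levy measure
-/

open MeasureTheory Filter Topology
open scoped ENNReal NNReal

namespace Pool.Agent.TH968

/-- density `|x|^(-1-α)` -/
noncomputable def dens (α : ℝ) (x : ℝ) : ℝ := |x| ^ (-1 - α)

theorem dens_nonneg (α x : ℝ) : 0 ≤ dens α x := Real.rpow_nonneg (abs_nonneg _) _

theorem measurable_dens (α : ℝ) : Measurable (dens α) := by
  unfold dens; fun_prop

/-- unnormalised Levy measure -/
noncomputable def lev0 (α : ℝ) : Measure ℝ :=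
  volume.withDensity (fun x => ENNReal.ofReal (dens α x))

theorem lintegral_lev0 {α : ℝ} {F : ℝ → ℝ≥0∞} (hF : Measurable F) :
    ∫⁻ x, F x ∂(lev0 α) = ∫⁻ x, ENNReal.ofReal (dens α x) * F x := by
  unfold lev0
  rw [lintegral_withDensity_eq_lintegral_mul _ (measurable_dens α).ennreal_ofReal hF]
  rfl

theorem dens_neg (α x : ℝ) : dens α (-x) = dens α x := by simp [dens]

theorem dens_scale (α : ℝ) {l : ℝ} (hl : 0 < l) (x : ℝ) :
    dens α x = l ^ (1 + α) * dens α (l * x) := by
  unfold dens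
  rw [abs_mul, abs_of_pos hl, Real.mul_rpow hl.le (abs_nonneg _), ← mul_assoc,
    ← Real.rpow_add hl]
  have : 1 + α + (-1 - α) = 0 := by ring
  rw [this, Real.rpow_zero, one_mul]

theorem lev0_scale (α : ℝ) {l : ℝ} (hl : 0 < l) :
    (lev0 α).map (fun x => l * x) = ENNReal.ofReal (l ^ α) • lev0 α := by
  refine Measure.ext_of_lintegral _ (fun F hF => ?_)
  rw [lintegral_map hF (by fun_prop), lintegral_smul_measure, lintegral_lev0 hF,
    lintegral_lev0 (F := fun x => F (l * x)) (hF.comp (measurable_const_mul l))]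
  have h1 : ∀ x, ENNReal.ofReal (dens α x) * F (l * x)
      = ENNReal.ofReal (l ^ (1 + α)) * (fun y => ENNReal.ofReal (dens α y) * F y) (l * x) := by
    intro x
    rw [dens_scale α hl x, ENNReal.ofReal_mul (by positivity), mul_assoc]
  simp_rw [h1]
  rw [lintegral_const_mul _ (by
    exact ((measurable_dens α).ennreal_ofReal.mul hF).comp (measurable_const_mul l))]
  rw [← lintegral_map (f := fun y => ENNReal.ofReal (dens α y) * F y) (g := fun x => l * x)
    (((measurable_dens α).ennreal_ofReal.mul hF)) (by fun_prop)]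
  rw [Real.map_volume_mul_left hl.ne', lintegral_smul_measure, smul_eq_mul, smul_eq_mul,
    ← mul_assoc]
  congr 1
  rw [abs_of_pos (by positivity), ← ENNReal.ofReal_mul (by positivity)]
  congr 1
  rw [Real.rpow_add hl, Real.rpow_one]
  field_simp

theorem lev0_neg (α : ℝ) : (lev0 α).map (fun x => -x) = lev0 α := by
  refine Measure.ext_of_lintegral _ (fun F hF => ?_)
  rw [lintegral_map hF (by fun_prop), lintegral_lev0 hF,
    lintegral_lev0 (F := fun x => F (-x)) (hF.comp measurable_neg)]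
  have h1 : ∀ x, ENNReal.ofReal (dens α x) * F (-x)
      = (fun y => ENNReal.ofReal (dens α y) * F y) (-x) := by
    intro x
    simp only [dens_neg]
  simp_rw [h1]
  exact (Measure.measurePreserving_neg (volume : Measure ℝ)).lintegral_comp
    (((measurable_dens α).ennreal_ofReal.mul hF))

theorem lint_even {g : ℝ → ℝ≥0∞} (hg : Measurable g) (he : ∀ x, g (-x) = g x) :
    ∫⁻ x, g x ≤ 2 * ∫⁻ x in Set.Ioi 0, g x := by
  rw [← lintegral_add_compl g (measurableSet_Ioi (a := (0:ℝ))), two_mul]
  refine add_le_add le_rfl ?_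
  have h1 : (Set.Ioi (0:ℝ))ᶜ = Set.Iic 0 := Set.compl_Ioi
  rw [h1, setLIntegral_congr (Iio_ae_eq_Iic (a := (0:ℝ)) (μ := volume)).symm]
  have h2 := (Measure.measurePreserving_neg (volume : Measure ℝ)).setLIntegral_comp_preimage
    (s := Set.Ioi (0:ℝ)) measurableSet_Ioi hg
  rw [← h2]
  have h3 : Neg.neg ⁻¹' (Set.Ioi (0:ℝ)) = Set.Iio 0 := by ext x; simp
  rw [h3]
  simp_rw [he]
  exact le_rfl

theorem lint_min_fin {α : ℝ} (h0 : 0 < α) (h1 : α < 1) :
    ∫⁻ x, min 1 (ENNReal.ofReal |x|) ∂(lev0 α) < ∞ := by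
  have hm : Measurable (fun x : ℝ => min 1 (ENNReal.ofReal |x|)) := by fun_prop
  rw [lintegral_lev0 hm]
  have hm2 : Measurable (fun x : ℝ => ENNReal.ofReal (dens α x) * min 1 (ENNReal.ofReal |x|)) :=
    (measurable_dens α).ennreal_ofReal.mul hm
  refine (lint_even hm2 (fun x => by simp [dens_neg])).trans_lt ?_
  refine ENNReal.mul_lt_top (by simp) ?_
  have h2 : Set.Ioi (0:ℝ) = Set.Ioc 0 1 ∪ Set.Ioi 1 := by
    rw [Set.Ioc_union_Ioi_eq_Ioi zero_le_one]
  rw [h2]
  refine (lintegral_union_le _ _ _).trans_lt (ENNReal.add_lt_top.2 ⟨?_, ?_⟩)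
  · have hI : IntegrableOn (fun x : ℝ => x ^ (-α)) (Set.Ioc 0 1) := by
      have := intervalIntegral.intervalIntegrable_rpow' (a := 0) (b := 1) (r := -α) (by linarith)
      rwa [intervalIntegrable_iff_integrableOn_Ioc_of_le zero_le_one] at this
    refine lt_of_le_of_lt (setLIntegral_mono' measurableSet_Ioc (g := fun x : ℝ =>
      ENNReal.ofReal (x ^ (-α))) ?_) ?_
    · intro x hx
      refine (mul_le_mul_right (min_le_right _ _) _).trans ?_
      rw [← ENNReal.ofReal_mul (dens_nonneg _ _)]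
      apply ENNReal.ofReal_le_ofReal
      unfold dens
      rw [abs_of_pos hx.1]
      rw [← Real.rpow_add_one hx.1.ne']
      exact le_of_eq (by ring_nf)
    · have := hI.2
      rw [hasFiniteIntegral_iff_ofReal] at this
      · exact this
      · exact (ae_restrict_iff' measurableSet_Ioc).2 (ae_of_all _ (fun x hx =>
          Real.rpow_nonneg hx.1.le _))
  · have hI : IntegrableOn (fun x : ℝ => x ^ (-1-α)) (Set.Ioi 1) :=
      integrableOn_Ioi_rpow_of_lt (by linarith) one_pos
    refine lt_of_le_of_lt (setLIntegral_mono' measurableSet_Ioi (g := fun x : ℝ =>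
      ENNReal.ofReal (x ^ (-1-α))) ?_) ?_
    · intro x hx
      refine (mul_le_mul_right (min_le_left _ _) _).trans ?_
      rw [mul_one]
      apply ENNReal.ofReal_le_ofReal
      unfold dens
      rw [abs_of_pos (lt_trans one_pos hx)]
    · have := hI.2
      rw [hasFiniteIntegral_iff_ofReal] at this
      · exact this
      · exact (ae_restrict_iff' measurableSet_Ioi).2 (ae_of_all _ (fun x hx =>
          Real.rpow_nonneg (lt_trans one_pos hx).le _))

theorem abs_sub_exp_le (x : ℝ) : ‖Complex.exp ((x : ℂ) * Complex.I) - 1‖ ≤ 2 * min 1 |x| := by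
  rcases le_total 1 |x| with h | h
  · rw [min_eq_left h]
    calc ‖Complex.exp ((x : ℂ) * Complex.I) - 1‖
        ≤ ‖Complex.exp ((x : ℂ) * Complex.I)‖ + ‖(1 : ℂ)‖ := norm_sub_le _ _
      _ = 2 * 1 := by rw [Complex.norm_exp_ofReal_mul_I, norm_one]; norm_num
  · rw [min_eq_right h]
    have := Real.norm_exp_I_mul_ofReal_sub_one_le (x := x)
    rw [mul_comm] at this
    rw [Real.norm_eq_abs] at this
    linarith [abs_nonneg x]

theorem integrable_exp_lev0 {α : ℝ} (h0 : 0 < α) (h1 : α < 1) (ξ : ℝ) :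
    Integrable (fun x : ℝ => Complex.exp (((ξ * x : ℝ) : ℂ) * Complex.I) - 1) (lev0 α) := by
  refine ⟨by fun_prop, ?_⟩
  have hle : ∀ x : ℝ, ‖Complex.exp (((ξ * x : ℝ) : ℂ) * Complex.I) - 1‖ₑ
      ≤ ENNReal.ofReal (2 * (1 + |ξ|)) * min 1 (ENNReal.ofReal |x|) := by
    intro x
    rw [← ofReal_norm]
    have e1 : min 1 (ENNReal.ofReal |x|) = ENNReal.ofReal (min 1 |x|) := by
      rw [ENNReal.ofReal_min, ENNReal.ofReal_one]
    rw [e1, ← ENNReal.ofReal_mul (by positivity)]
    apply ENNReal.ofReal_le_ofReal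
    refine (abs_sub_exp_le (ξ * x)).trans ?_
    have h2 : min 1 |ξ * x| ≤ (1 + |ξ|) * min 1 |x| := by
      rcases le_total 1 |x| with h | h
      · rw [min_eq_left h]
        exact (min_le_left _ _).trans (by linarith [abs_nonneg ξ])
      · rw [min_eq_right h]
        refine (min_le_right _ _).trans ?_
        rw [abs_mul]
        nlinarith [abs_nonneg ξ, abs_nonneg x]
    calc 2 * min 1 |ξ * x| ≤ 2 * ((1 + |ξ|) * min 1 |x|) := by linarith
      _ = 2 * (1 + |ξ|) * min 1 |x| := by ring
  refine lt_of_le_of_lt (lintegral_mono hle) ?_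
  rw [lintegral_const_mul _ (by fun_prop)]
  exact ENNReal.mul_lt_top ENNReal.ofReal_lt_top (lint_min_fin h0 h1)

/-- normalising constant -/
noncomputable def levI (α : ℝ) : ℝ := ∫ x, (1 - Real.cos x) ∂(lev0 α)

theorem integrable_cos_lev0 {α : ℝ} (h0 : 0 < α) (h1 : α < 1) (ξ : ℝ) :
    Integrable (fun x : ℝ => 1 - Real.cos (ξ * x)) (lev0 α) := by
  have h := (integrable_exp_lev0 h0 h1 ξ).re.neg
  refine h.congr (ae_of_all _ (fun x => ?_))
  simp only [Pi.neg_apply, RCLike.re_to_complex, Complex.sub_re, Complex.one_re,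
    Complex.exp_ofReal_mul_I_re]
  ring

theorem levI_pos {α : ℝ} (h0 : 0 < α) (h1 : α < 1) : 0 < levI α := by
  unfold levI
  have hint := integrable_cos_lev0 h0 h1 1
  simp only [one_mul] at hint
  rw [integral_pos_iff_support_of_nonneg (fun x => by simp [Real.cos_le_one]) hint]
  have hsub : Set.Ioo (1:ℝ) 2 ⊆ Function.support (fun x : ℝ => 1 - Real.cos x) := by
    intro x hx
    simp only [Function.mem_support]
    have h3 : Real.cos x < 1 := by
      have := Real.cos_lt_cos_of_nonneg_of_le_pi (x := 0) (y := x) le_rfl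
        (by linarith [Real.pi_gt_three, hx.2]) (by linarith [hx.1])
      simpa using this
    linarith
  refine lt_of_lt_of_le ?_ (measure_mono hsub)
  unfold lev0
  rw [withDensity_apply _ measurableSet_Ioo]
  refine (setLIntegral_pos_iff (measurable_dens α).ennreal_ofReal).2 ?_
  have : Function.support (fun x => ENNReal.ofReal (dens α x)) ∩ Set.Ioo (1:ℝ) 2
      = Set.Ioo (1:ℝ) 2 := by
    apply Set.inter_eq_right.2
    intro x hx
    simp only [Function.mem_support, ne_eq, ENNReal.ofReal_eq_zero, not_le]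
    unfold dens
    have : 0 < |x| := abs_pos.2 (by linarith [hx.1])
    positivity
  rw [this]
  simp

/-- normalised Levy measure -/
noncomputable def lev (α : ℝ) : Measure ℝ := ENNReal.ofReal (1 / levI α) • lev0 α

theorem lev_exp {α : ℝ} (h0 : 0 < α) (h1 : α < 1) (ξ : ℝ) :
    ∫ x, (Complex.exp (((ξ * x : ℝ) : ℂ) * Complex.I) - 1) ∂(lev α)
      = ((-(|ξ| ^ α) : ℝ) : ℂ) := by
  rcases eq_or_ne ξ 0 with hξ | hξ
  · subst hξ
    simp [h0.ne']
  have hξ' : 0 < |ξ| := abs_pos.2 hξ
  -- reduce to |ξ|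
  have e1 : ∫ x, (Complex.exp (((ξ * x : ℝ) : ℂ) * Complex.I) - 1) ∂(lev0 α)
      = ∫ x, (Complex.exp (((|ξ| * x : ℝ) : ℂ) * Complex.I) - 1) ∂(lev0 α) := by
    rcases le_total 0 ξ with h | h
    · rw [abs_of_nonneg h]
    · rw [abs_of_nonpos h]
      conv_lhs => rw [← lev0_neg α]
      rw [integral_map (by fun_prop) (by fun_prop)]
      congr 1
      ext x
      push_cast
      ring_nf
  have e2 : ∫ x, (Complex.exp (((|ξ| * x : ℝ) : ℂ) * Complex.I) - 1) ∂(lev0 α)
      = ((|ξ| ^ α : ℝ) : ℂ) * ∫ x, (Complex.exp ((x : ℂ) * Complex.I) - 1) ∂(lev0 α) := by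
    have h := integral_map (μ := lev0 α) (φ := fun x => |ξ| * x)
      (f := fun x : ℝ => Complex.exp ((x : ℂ) * Complex.I) - 1) (by fun_prop) (by fun_prop)
    rw [← h, lev0_scale α hξ', integral_smul_measure, ENNReal.toReal_ofReal (by positivity),
      Complex.real_smul]
  have e3 : ∫ x, (Complex.exp ((x : ℂ) * Complex.I) - 1) ∂(lev0 α) = ((-(levI α) : ℝ) : ℂ) := by
    set Z := ∫ x, (Complex.exp ((x : ℂ) * Complex.I) - 1) ∂(lev0 α) with hZ
    have hint := integrable_exp_lev0 h0 h1 1
    simp only [one_mul] at hint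
    have hc : (starRingEnd ℂ) Z = Z := by
      rw [hZ, ← integral_conj]
      conv_rhs => rw [← lev0_neg α]
      rw [integral_map (by fun_prop) (by fun_prop)]
      congr 1
      ext x
      rw [map_sub, map_one, ← Complex.exp_conj]
      congr 2
      simp
    have hre : Z.re = -(levI α) := by
      have h2 : Z.re = ∫ x, (Complex.exp ((x : ℂ) * Complex.I) - 1).re ∂(lev0 α) := by
        rw [hZ]
        exact (integral_re hint).symm
      rw [h2]
      unfold levI
      rw [← integral_neg]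
      congr 1
      ext x
      simp only [Complex.sub_re, Complex.one_re, Complex.exp_ofReal_mul_I_re]
      ring
    have him : Z.im = 0 := Complex.conj_eq_iff_im.1 hc
    apply Complex.ext
    · rw [Complex.ofReal_re, hre]
    · rw [Complex.ofReal_im, him]
  unfold lev
  rw [integral_smul_measure, e1, e2, e3, ENNReal.toReal_ofReal (by
    have := levI_pos h0 h1; positivity), Complex.real_smul]
  have := (levI_pos h0 h1).ne'
  rw [← Complex.ofReal_mul, ← Complex.ofReal_mul]
  congr 1
  field_simp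

end Pool.Agent.TH968
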