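import Mathlib

set_option autoImplicit false

/-!
# Poisson random measures on a countable union of finite cells
-/

open MeasureTheory ProbabilityTheory Filter Topology
open scoped ENNReal NNReal

namespace Pool.Agent.TH968

variable {E : Type} [MeasurableSpace E]

/-- Sum of `f` over the points of a cell configuration. -/
def cellSum {M : Type} [AddCommMonoid M] (f : E → M) (c : ℕ × (ℕ → E)) : M :=
  ∑ i ∈ Finset.range c.1, f (c.2 i)

/-- Law of a cell: a Poisson number of points with law `ν`. -/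
noncomputable def cellLaw (r : ℝ≥0) (ν : Measure E) : Measure (ℕ × (ℕ → E)) :=
  (poissonMeasure r).prod (Measure.infinitePi (fun _ : ℕ => ν))

instance (r : ℝ≥0) (ν : Measure E) [IsProbabilityMeasure ν] :
    IsProbabilityMeasure (cellLaw r ν) := by
  unfold cellLaw; infer_instance

theorem measurable_cellSum {M : Type} [AddCommMonoid M] [MeasurableSpace M] [MeasurableAdd₂ M]
    {f : E → M} (hf : Measurable f) : Measurable (cellSum f) := by
  refine measurable_from_prod_countable_right (fun n => ?_)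
  have h := Finset.measurable_sum (Finset.range n)
    (fun i (_ : i ∈ Finset.range n) => hf.comp (measurable_pi_apply (X := fun _ : ℕ => E) i))
  simpa [cellSum, Function.comp_def] using h

theorem measurable_cellProd {h : E → ℂ} (hh : Measurable h) :
    Measurable (fun c : ℕ × (ℕ → E) => ∏ i ∈ Finset.range c.1, h (c.2 i)) := by
  refine measurable_from_prod_countable_right (fun n => ?_)
  have h := Finset.measurable_prod (Finset.range n)
    (fun i (_ : i ∈ Finset.range n) => hh.comp (measurable_pi_apply (X := fun _ : ℕ => E) i))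
  simpa [Function.comp_def] using h

theorem integral_range_prod {ν : Measure E} [IsProbabilityMeasure ν] {h : E → ℂ}
    (hh : Measurable h) (n : ℕ) :
    ∫ x : ℕ → E, ∏ i ∈ Finset.range n, h (x i) ∂(Measure.infinitePi (fun _ : ℕ => ν))
      = (∫ x, h x ∂ν) ^ n := by
  have key := integral_restrict_infinitePi (μ := fun _ : ℕ => ν) (s := Finset.range n)
    (f := fun y : ((i : Finset.range n) → E) => ∏ i, h (y i))
    ((Finset.measurable_prod _ (fun i _ => hh.comp (measurable_pi_apply i))).aestronglyMeasurable)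
  have h2 : ∀ y : ℕ → E, ∏ i ∈ Finset.range n, h (y i)
      = ∏ i : Finset.range n, h ((Finset.range n).restrict y i) := by
    intro y
    rw [← Finset.prod_coe_sort]
    rfl
  simp_rw [h2]
  rw [key, integral_fintype_prod_eq_prod]
  simp

theorem integral_cell {r : ℝ≥0} {ν : Measure E} [IsProbabilityMeasure ν] {h : E → ℂ}
    (hh : Measurable h) (h1 : ∀ x, ‖h x‖ ≤ 1) :
    ∫ c, ∏ i ∈ Finset.range c.1, h (c.2 i) ∂(cellLaw r ν)
      = Complex.exp (r * ((∫ x, h x ∂ν) - 1)) := by
  have hint : Integrable (fun c : ℕ × (ℕ → E) => ∏ i ∈ Finset.range c.1, h (c.2 i))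
      (cellLaw r ν) := by
    refine Integrable.of_bound (measurable_cellProd hh).aestronglyMeasurable 1
      (ae_of_all _ (fun c => ?_))
    rw [norm_prod]
    exact Finset.prod_le_one (fun _ _ => norm_nonneg _) (fun i _ => h1 _)
  unfold cellLaw at hint ⊢
  rw [integral_prod _ hint]
  simp_rw [integral_range_prod hh]
  rw [integral_poissonMeasure]
  set φ : ℂ := ∫ x, h x ∂ν
  calc ∑' n : ℕ, (Real.exp (-r) * r ^ n / (n.factorial : ℝ)) • φ ^ n
      = ∑' n : ℕ, (Real.exp (-r) : ℂ) * ((r * φ) ^ n / (n.factorial : ℂ)) := by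
        congr with n
        rw [Complex.real_smul]
        push_cast
        rw [mul_pow]
        ring
    _ = (Real.exp (-r) : ℂ) * ∑' n : ℕ, ((r * φ) ^ n / (n.factorial : ℂ)) := tsum_mul_left
    _ = (Real.exp (-r) : ℂ) * Complex.exp (r * φ) := by
        rw [(NormedSpace.expSeries_div_hasSum_exp ((r : ℂ) * φ)).tsum_eq, Complex.exp_eq_exp_ℂ]
    _ = Complex.exp (r * (φ - 1)) := by
        rw [Complex.ofReal_exp, ← Complex.exp_add]
        push_cast
        ring_nf

theorem lintegral_poisson_id (r : ℝ≥0) : ∫⁻ n, (n : ℝ≥0∞) ∂(poissonMeasure r) = r := by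
  have h1 : ∀ n : ℕ, ENNReal.ofReal (Real.exp (-r) * r ^ (n+1) / ((n+1).factorial : ℝ)) *
      ((n + 1 : ℕ) : ℝ≥0∞) = r * ENNReal.ofReal (Real.exp (-r) * r ^ n / (n.factorial : ℝ)) := by
    intro n
    have e1 : ((n + 1 : ℕ) : ℝ≥0∞) = ENNReal.ofReal ((n : ℝ) + 1) := by
      rw [← ENNReal.ofReal_natCast]; push_cast; rfl
    have e2 : (r : ℝ≥0∞) = ENNReal.ofReal (r : ℝ) := by simp
    rw [e1, e2, ← ENNReal.ofReal_mul (by positivity), ← ENNReal.ofReal_mul (by positivity)]
    congr 1
    rw [Nat.factorial_succ]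
    push_cast
    have : (n.factorial : ℝ) ≠ 0 := by positivity
    have : (n : ℝ) + 1 ≠ 0 := by positivity
    field_simp
    ring
  unfold poissonMeasure
  rw [lintegral_sum_measure]
  simp_rw [lintegral_smul_measure, lintegral_dirac]
  rw [tsum_eq_zero_add' ENNReal.summable]
  simp only [smul_eq_mul, Nat.cast_zero, mul_zero, zero_add]
  simp_rw [h1]
  rw [ENNReal.tsum_mul_left]
  have h3 : ∑' n : ℕ, ENNReal.ofReal (Real.exp (-r) * r ^ n / (n.factorial : ℝ)) = 1 := by
    rw [← ENNReal.ofReal_tsum_of_nonneg (fun n => by positivity)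
      (hasSum_one_poissonMeasure r).summable, (hasSum_one_poissonMeasure r).tsum_eq]
    simp
  rw [h3, mul_one]

theorem lintegral_cell {r : ℝ≥0} {ν : Measure E} [IsProbabilityMeasure ν] {f : E → ℝ≥0∞}
    (hf : Measurable f) :
    ∫⁻ c, cellSum f c ∂(cellLaw r ν) = r * ∫⁻ x, f x ∂ν := by
  unfold cellLaw
  rw [lintegral_prod _ (measurable_cellSum hf).aemeasurable]
  have h2 : ∀ n : ℕ, ∫⁻ x : ℕ → E, cellSum f (n, x) ∂(Measure.infinitePi (fun _ : ℕ => ν))
      = (n : ℝ≥0∞) * ∫⁻ x, f x ∂ν := by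
    intro n
    have h4 : ∀ x : ℕ → E, cellSum f (n, x) = ∑ i ∈ Finset.range n, f (x i) := fun x => rfl
    simp_rw [h4]
    rw [lintegral_finsetSum (f := fun (i : ℕ) (x : ℕ → E) => f (x i)) _
      (fun i _ => hf.comp (measurable_pi_apply (X := fun _ : ℕ => E) i))]
    have h3 : ∀ i : ℕ, ∫⁻ x : ℕ → E, f (x i) ∂(Measure.infinitePi (fun _ : ℕ => ν))
        = ∫⁻ x, f x ∂ν := by
      intro i
      rw [← (measurePreserving_eval_infinitePi (fun _ : ℕ => ν) i).lintegral_comp hf]
    simp_rw [h3]
    simp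
  simp_rw [h2]
  rw [lintegral_mul_const _ (by fun_prop), lintegral_poisson_id]

section Multi

variable {ι : Type}

/-- Law of the whole configuration: independent cells. -/
noncomputable def prm (M : Measure E) (B : ι → Set E) : Measure (ι → ℕ × (ℕ → E)) :=
  Measure.infinitePi (fun j => cellLaw (M (B j)).toNNReal (cond M (B j)))

/-- The cells form a countable partition into sets of positive finite measure. -/
structure GoodCells (M : Measure E) (B : ι → Set E) : Prop where
  meas : ∀ j, MeasurableSet (B j)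
  disj : Pairwise (Function.onFun Disjoint B)
  ne_zero : ∀ j, M (B j) ≠ 0
  ne_top : ∀ j, M (B j) ≠ ∞
  cover : M (⋃ j, B j)ᶜ = 0

theorem GoodCells.prob {M : Measure E} {B : ι → Set E} (hB : GoodCells M B) (j : ι) :
    IsProbabilityMeasure (cond M (B j)) :=
  cond_isProbabilityMeasure_of_finite (hB.ne_zero j) (hB.ne_top j)

theorem GoodCells.prm_prob {M : Measure E} {B : ι → Set E} (hB : GoodCells M B) :
    IsProbabilityMeasure (prm M B) := by
  have := hB.prob
  unfold prm
  infer_instance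

/-- Total sum over all points, in `[0,∞]`. -/
noncomputable def tot (f : E → ℝ≥0∞) (ω : ι → ℕ × (ℕ → E)) : ℝ≥0∞ := ∑' j, cellSum f (ω j)

/-- Total sum over all points, real valued. -/
noncomputable def rtot (f : E → ℝ) (ω : ι → ℕ × (ℕ → E)) : ℝ := ∑' j, cellSum f (ω j)

theorem measurable_tot [Countable ι] {f : E → ℝ≥0∞} (hf : Measurable f) :
    Measurable (tot f : (ι → ℕ × (ℕ → E)) → ℝ≥0∞) := by
  unfold tot
  exact Measurable.tsum (fun j => (measurable_cellSum hf).comp (measurable_pi_apply j))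

theorem GoodCells.cell_lintegral {M : Measure E} {B : ι → Set E} (hB : GoodCells M B)
    {f : E → ℝ≥0∞} (j : ι) :
    ((M (B j)).toNNReal : ℝ≥0∞) * ∫⁻ x, f x ∂(cond M (B j)) = ∫⁻ x in B j, f x ∂M := by
  rw [ProbabilityTheory.cond, lintegral_smul_measure, ENNReal.coe_toNNReal (hB.ne_top j), smul_eq_mul, ← mul_assoc,
    ENNReal.mul_inv_cancel (hB.ne_zero j) (hB.ne_top j), one_mul]

theorem GoodCells.campbell [Countable ι] {M : Measure E} {B : ι → Set E} (hB : GoodCells M B)
    {f : E → ℝ≥0∞} (hf : Measurable f) :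
    ∫⁻ ω, tot f ω ∂(prm M B) = ∫⁻ x, f x ∂M := by
  have := hB.prob
  have hM : M = M.restrict (⋃ j, B j) := by
    symm
    apply Measure.restrict_eq_self_of_ae_mem
    rw [ae_iff]
    exact hB.cover
  unfold tot
  rw [lintegral_tsum (f := fun (j : ι) (ω : ι → ℕ × (ℕ → E)) => cellSum f (ω j))
    (fun j => ((measurable_cellSum hf).comp (measurable_pi_apply j)).aemeasurable)]
  have h3 : ∀ j : ι, ∫⁻ ω, cellSum f (ω j) ∂(prm M B) = ∫⁻ x in B j, f x ∂M := by
    intro j
    rw [← hB.cell_lintegral, ← lintegral_cell hf]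
    exact (measurePreserving_eval_infinitePi
      (fun j => cellLaw (M (B j)).toNNReal (cond M (B j))) j).lintegral_comp (measurable_cellSum hf)
  simp_rw [h3]
  rw [← lintegral_iUnion hB.meas hB.disj, ← hM]

theorem GoodCells.ae_ne_top [Countable ι] {M : Measure E} {B : ι → Set E} (hB : GoodCells M B)
    {f : E → ℝ≥0∞} (hf : Measurable f) (hfin : ∫⁻ x, f x ∂M ≠ ∞) :
    ∀ᵐ ω ∂(prm M B), tot f ω ≠ ∞ := by
  have h := hB.campbell hf
  have := ae_lt_top (μ := prm M B) (measurable_tot hf) (by rw [h]; exact hfin)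
  filter_upwards [this] with ω hω using hω.ne

end Multi

end Pool.Agent.TH968
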