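import Pool.Agent.TH968.ExpF
import Pool.Agent.TH968.Levy

set_option autoImplicit false

/-!
# The symmetric stable process as a Poisson sum of jumps
-/

open MeasureTheory ProbabilityTheory Filter Topology
open scoped ENNReal NNReal

namespace Pool.Agent.TH968

section General

variable {E : Type} [MeasurableSpace E]

theorem exists_goodCells (M : Measure E) [SigmaFinite M] :
    ∃ (ι : Type) (_ : Countable ι) (B : ι → Set E), GoodCells M B := by
  refine ⟨{j : ℕ // M (disjointed (spanningSets M) j) ≠ 0}, inferInstance,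
    fun j => disjointed (spanningSets M) j.1, ?_, ?_, ?_, ?_, ?_⟩
  · intro j
    exact MeasurableSet.disjointed (measurableSet_spanningSets M) j.1
  · intro i j hij
    exact disjoint_disjointed (spanningSets M) (fun h => hij (Subtype.ext h))
  · intro j
    exact j.2
  · intro j
    exact (measure_mono (disjointed_subset _ _)).trans_lt (measure_spanningSets_lt_top M j.1) |>.ne
  · have hsub : (⋃ j : {j : ℕ // M (disjointed (spanningSets M) j) ≠ 0},
        disjointed (spanningSets M) j.1)ᶜ ⊆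
        ⋃ j : {j : ℕ // M (disjointed (spanningSets M) j) = 0},
          disjointed (spanningSets M) j.1 := by
      intro x hx
      have hx2 : x ∈ ⋃ j, disjointed (spanningSets M) j := by
        rw [iUnion_disjointed, iUnion_spanningSets]; trivial
      obtain ⟨j, hj⟩ := Set.mem_iUnion.1 hx2
      rw [Set.mem_compl_iff, Set.mem_iUnion, not_exists] at hx
      by_cases h : M (disjointed (spanningSets M) j) = 0
      · exact Set.mem_iUnion.2 ⟨⟨j, h⟩, hj⟩
      · exact absurd hj (hx ⟨j, h⟩)
    refine measure_mono_null hsub ?_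
    rw [measure_iUnion_null_iff]
    exact fun j => j.2

variable {ι : Type}

omit [MeasurableSpace E] in
theorem tot_ne_top_of_min {f : E → ℝ≥0∞} {ω : ι → ℕ × (ℕ → E)} (hf : ∀ x, f x ≠ ∞)
    (h : tot (fun x => min 1 (f x)) ω ≠ ∞) : tot f ω ≠ ∞ := by
  classical
  unfold tot at h ⊢
  have hfin := ENNReal.finite_const_le_of_tsum_ne_top h (one_ne_zero)
  set S : Finset ι := hfin.toFinset with hS
  have hle : ∀ j, cellSum f (ω j) ≤ cellSum (fun x => min 1 (f x)) (ω j)
      + (if j ∈ S then cellSum f (ω j) else 0) := by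
    intro j
    by_cases hj : j ∈ S
    · rw [if_pos hj]; exact le_add_self
    · rw [if_neg hj, add_zero]
      have hj2 : cellSum (fun x => min 1 (f x)) (ω j) < 1 := by
        by_contra hcon
        exact hj (by simpa [hS] using not_lt.1 hcon)
      unfold cellSum at hj2 ⊢
      refine Finset.sum_le_sum (fun i hi => ?_)
      have h3 : min 1 (f ((ω j).2 i)) < 1 :=
        lt_of_le_of_lt (Finset.single_le_sum (f := fun i => min 1 (f ((ω j).2 i)))
          (fun _ _ => zero_le) hi) hj2
      rw [min_lt_iff] at h3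
      rcases h3 with h3 | h3
      · exact absurd h3 (lt_irrefl _)
      · exact le_of_eq (min_eq_right h3.le).symm
  refine ne_top_of_le_ne_top ?_ (ENNReal.tsum_le_tsum hle)
  rw [ENNReal.tsum_add]
  refine ENNReal.add_ne_top.2 ⟨h, ?_⟩
  rw [tsum_eq_sum (s := S) (fun j hj => if_neg hj)]
  refine (ENNReal.sum_lt_top.2 (fun j hj => ?_)).ne
  rw [if_pos hj]
  unfold cellSum
  exact ENNReal.sum_lt_top.2 (fun i _ => lt_top_iff_ne_top.2 (hf _))

omit [MeasurableSpace E] in
theorem tot_eq_of_min_lt_one {f : E → ℝ≥0∞} {ω : ι → ℕ × (ℕ → E)}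
    (h : tot (fun x => min 1 (f x)) ω < 1) : tot f ω = tot (fun x => min 1 (f x)) ω := by
  unfold tot at h ⊢
  refine tsum_congr (fun j => ?_)
  have h2 : cellSum (fun x => min 1 (f x)) (ω j) < 1 := lt_of_le_of_lt (ENNReal.le_tsum j) h
  unfold cellSum at h2 ⊢
  refine Finset.sum_congr rfl (fun i hi => ?_)
  have h3 : min 1 (f ((ω j).2 i)) < 1 :=
    lt_of_le_of_lt (Finset.single_le_sum (f := fun i => min 1 (f ((ω j).2 i)))
      (fun _ _ => zero_le) hi) h2
  rw [min_lt_iff] at h3
  rcases h3 with h3 | h3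
  · exact absurd h3 (lt_irrefl _)
  · exact (min_eq_right h3.le).symm

omit [MeasurableSpace E] in
theorem tot_mono {f g : E → ℝ≥0∞} (hfg : ∀ x, f x ≤ g x) (ω : ι → ℕ × (ℕ → E)) :
    tot f ω ≤ tot g ω :=
  ENNReal.tsum_le_tsum (fun _ => Finset.sum_le_sum (fun _ _ => hfg _))

omit [MeasurableSpace E] in
theorem tot_add (f g : E → ℝ≥0∞) (ω : ι → ℕ × (ℕ → E)) :
    tot (fun x => f x + g x) ω = tot f ω + tot g ω := by
  unfold tot
  rw [← ENNReal.tsum_add]
  refine tsum_congr (fun j => ?_)
  unfold cellSum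
  rw [Finset.sum_add_distrib]

theorem abs_rtot_le {f : E → ℝ} {ω : ι → ℕ × (ℕ → E)} {b : ℝ} (hb : 0 ≤ b)
    (h : tot (fun x => ENNReal.ofReal |f x|) ω ≤ ENNReal.ofReal b) : |rtot f ω| ≤ b := by
  have h1 : ‖rtot f ω‖ₑ ≤ ENNReal.ofReal b := by
    unfold rtot
    refine le_trans ?_ h
    refine le_trans (enorm_tsum_le_tsum_enorm) ?_
    exact ENNReal.tsum_le_tsum (fun j => cellSum_abs_le f (ω j))
  rw [← ofReal_norm, ENNReal.ofReal_le_ofReal_iff hb] at h1
  exact h1

theorem measurable_rtot [Countable ι] {f : E → ℝ} (hf : Measurable f) :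
    Measurable (rtot f : (ι → ℕ × (ℕ → E)) → ℝ) := by
  unfold rtot
  exact Measurable.tsum (fun j => (measurable_cellSum hf).comp (measurable_pi_apply j))

/-- dominated convergence for `rtot` -/
theorem tendsto_rtot {A : Type} {l : Filter A} {F : A → E → ℝ} {G : E → ℝ} {b : E → ℝ}
    {ω : ι → ℕ × (ℕ → E)} (hb : tot (fun x => ENNReal.ofReal (b x)) ω ≠ ∞)
    (hb0 : ∀ x, 0 ≤ b x)
    (hF : ∀ x, Tendsto (fun a => F a x) l (𝓝 (G x)))
    (hbd : ∀ᶠ a in l, ∀ x, |F a x| ≤ b x) :
    Tendsto (fun a => rtot (F a) ω) l (𝓝 (rtot G ω)) := by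
  have hsum : Summable (fun j => cellSum b (ω j)) := by
    apply summable_of_tot
    simpa [abs_of_nonneg (hb0 _)] using hb
  unfold rtot
  refine tendsto_tsum_of_dominated_convergence hsum (fun j => ?_) ?_
  · unfold cellSum
    exact tendsto_finsetSum _ (fun i _ => hF _)
  · filter_upwards [hbd] with a ha j
    unfold cellSum
    exact (norm_sum_le _ _).trans (Finset.sum_le_sum (fun i _ => ha _))

end General

end Pool.Agent.TH968
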