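import Pool.Agent.TH968.Proc

set_option autoImplicit false

/-!
# The symmetric stable process: definition, paths, joint characteristic function
-/

open MeasureTheory ProbabilityTheory Filter Topology
open scoped ENNReal NNReal

namespace Pool.Agent.TH968

instance sigmaFinite_lev (α : ℝ) : SigmaFinite (lev α) := by
  have h : lev α = volume.withDensity (fun x => ENNReal.ofReal (max (1 / levI α) 0 * dens α x)) := by
    unfold lev lev0
    rw [← withDensity_smul _ (measurable_dens α).ennreal_ofReal]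
    congr 1
    ext x
    rw [ENNReal.ofReal_mul (le_max_right _ _)]
    simp only [Pi.smul_apply, smul_eq_mul]
    congr 1
    rcases le_total (1 / levI α) 0 with h | h
    · rw [max_eq_right h, ENNReal.ofReal_of_nonpos h, ENNReal.ofReal_zero]
    · rw [max_eq_left h]
  rw [h]
  exact SigmaFinite.withDensity_ofReal _

/-- intensity measure of the jumps `(time, size)` -/
noncomputable def inten (α : ℝ) : Measure (ℝ × ℝ) := (volume.restrict (Set.Ici 0)).prod (lev α)

instance (α : ℝ) : SigmaFinite (inten α) := by unfold inten; infer_instance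

/-- the integral of `min 1 |x|` -/
noncomputable def m1 (α : ℝ) : ℝ≥0∞ := ∫⁻ x, min 1 (ENNReal.ofReal |x|) ∂(lev α)

theorem m1_lt_top {α : ℝ} (h0 : 0 < α) (h1 : α < 1) : m1 α < ∞ := by
  unfold m1 lev
  rw [lintegral_smul_measure]
  exact ENNReal.mul_lt_top ENNReal.ofReal_lt_top (lint_min_fin h0 h1)

theorem lev_scale (α : ℝ) {l : ℝ} (hl : 0 < l) :
    (lev α).map (fun x => l * x) = ENNReal.ofReal (l ^ α) • lev α := by
  unfold lev
  rw [Measure.map_smul, lev0_scale α hl, smul_comm]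

theorem lint_min_scale (α : ℝ) {l : ℝ} (hl : 0 < l) :
    ∫⁻ x, min 1 (ENNReal.ofReal (l * |x|)) ∂(lev α) = ENNReal.ofReal (l ^ α) * m1 α := by
  have h := lintegral_map (μ := lev α) (f := fun x => min 1 (ENNReal.ofReal |x|))
    (g := fun x => l * x) (by fun_prop) (by fun_prop)
  rw [lev_scale α hl, lintegral_smul_measure] at h
  unfold m1
  rw [smul_eq_mul] at h
  rw [h]
  simp_rw [abs_mul, abs_of_pos hl]

theorem lint_weight (α : ℝ) {T l : ℝ} (_hT : 0 ≤ T) (hl : 0 < l) :
    ∫⁻ p, (if p.1 ≤ T then min 1 (ENNReal.ofReal (l * |p.2|)) else 0) ∂(inten α)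
      = ENNReal.ofReal T * (ENNReal.ofReal (l ^ α) * m1 α) := by
  have h1 : ∀ p : ℝ × ℝ, (if p.1 ≤ T then min 1 (ENNReal.ofReal (l * |p.2|)) else 0)
      = (Set.Iic T).indicator (fun _ => (1 : ℝ≥0∞)) p.1 * min 1 (ENNReal.ofReal (l * |p.2|)) := by
    intro p
    by_cases hp : p.1 ≤ T
    · rw [if_pos hp, Set.indicator_of_mem (show p.1 ∈ Set.Iic T from hp), one_mul]
    · rw [if_neg hp, Set.indicator_of_notMem (show p.1 ∉ Set.Iic T from hp), zero_mul]
  simp_rw [h1]
  unfold inten
  rw [lintegral_prod_mul (f := (Set.Iic T).indicator (fun _ => (1 : ℝ≥0∞)))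
    (g := fun x => min 1 (ENNReal.ofReal (l * |x|)))
    (measurable_const.indicator measurableSet_Iic).aemeasurable (by fun_prop), lint_min_scale α hl]
  congr 1
  rw [lintegral_indicator measurableSet_Iic, setLIntegral_const, one_mul,
    Measure.restrict_apply measurableSet_Iic]
  have : Set.Iic T ∩ Set.Ici 0 = Set.Icc 0 T := by ext x; simp [and_comm]
  rw [this, Real.volume_Icc, sub_zero]

/-- the jump, if it occurred by time `t` -/
noncomputable def jumpF (t : ℝ) (p : ℝ × ℝ) : ℝ := if p.1 ≤ t then p.2 else 0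

theorem measurable_jumpF (t : ℝ) : Measurable (jumpF t) := by
  unfold jumpF
  exact Measurable.ite (measurableSet_le measurable_fst measurable_const) measurable_snd
    measurable_const

theorem abs_jumpF_mono {s t : ℝ} (h : s ≤ t) (p : ℝ × ℝ) : |jumpF s p| ≤ |jumpF t p| := by
  unfold jumpF
  by_cases h1 : p.1 ≤ s
  · rw [if_pos h1, if_pos (h1.trans h)]
  · rw [if_neg h1]
    simp

variable {ι : Type}

/-- the process -/
noncomputable def proc (t : ℝ) (ω : ι → ℕ × (ℕ → ℝ × ℝ)) : ℝ := rtot (jumpF t) ω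

theorem measurable_proc [Countable ι] (t : ℝ) :
    Measurable (proc t : (ι → ℕ × (ℕ → ℝ × ℝ)) → ℝ) := measurable_rtot (measurable_jumpF t)

/-- good configurations -/
def Gd (ω : ι → ℕ × (ℕ → ℝ × ℝ)) : Prop :=
  ∀ t : ℝ, tot (fun p => ENNReal.ofReal |jumpF t p|) ω ≠ ∞

theorem measurable_weight (T l : ℝ) : Measurable
    (fun p : ℝ × ℝ => (if p.1 ≤ T then min 1 (ENNReal.ofReal (l * |p.2|)) else 0)) := by
  refine Measurable.ite (measurableSet_le measurable_fst measurable_const) ?_
    measurable_const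
  fun_prop

theorem min_jumpF (T : ℝ) (p : ℝ × ℝ) : min 1 (ENNReal.ofReal |jumpF T p|)
    = (if p.1 ≤ T then min 1 (ENNReal.ofReal (1 * |p.2|)) else 0) := by
  unfold jumpF
  by_cases h : p.1 ≤ T
  · rw [if_pos h, if_pos h, one_mul]
  · rw [if_neg h, if_neg h]; simp

theorem ae_good [Countable ι] {α : ℝ} (h0 : 0 < α) (h1 : α < 1) {B : ι → Set (ℝ × ℝ)}
    (hB : GoodCells (inten α) B) : ∀ᵐ ω ∂(prm (inten α) B), Gd ω := by
  have h : ∀ᵐ ω ∂(prm (inten α) B), ∀ T : ℕ,
      tot (fun p => ENNReal.ofReal |jumpF T p|) ω ≠ ∞ := by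
    rw [ae_all_iff]
    intro T
    have h2 := hB.ae_ne_top (measurable_weight (T : ℝ) 1) (by
      rw [lint_weight α (Nat.cast_nonneg T) one_pos]
      exact ENNReal.mul_ne_top ENNReal.ofReal_ne_top
        (ENNReal.mul_ne_top ENNReal.ofReal_ne_top (m1_lt_top h0 h1).ne))
    filter_upwards [h2] with ω hω
    apply tot_ne_top_of_min (fun x => ENNReal.ofReal_ne_top)
    simp_rw [min_jumpF]
    exact hω
  filter_upwards [h] with ω hω t
  obtain ⟨T, hT⟩ := exists_nat_ge t
  exact ne_top_of_le_ne_top (hω T)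
    (tot_mono (fun p => ENNReal.ofReal_le_ofReal (abs_jumpF_mono hT p)) ω)

theorem ae_proc_zero [Countable ι] {α : ℝ} {B : ι → Set (ℝ × ℝ)}
    (hB : GoodCells (inten α) B) : ∀ᵐ ω ∂(prm (inten α) B), proc 0 ω = 0 := by
  have h2 := hB.campbell (measurable_weight (0 : ℝ) 1)
  rw [lint_weight α le_rfl one_pos, ENNReal.ofReal_zero, zero_mul,
    lintegral_eq_zero_iff (measurable_tot (measurable_weight (0 : ℝ) 1))] at h2
  filter_upwards [h2] with ω hω
  have h3 : tot (fun p => min 1 (ENNReal.ofReal |jumpF 0 p|)) ω = 0 := by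
    simp_rw [min_jumpF]
    exact hω
  have h4 : tot (fun p => ENNReal.ofReal |jumpF 0 p|) ω = 0 := by
    rw [tot_eq_of_min_lt_one (by rw [h3]; exact one_pos), h3]
  have h5 := abs_rtot_le (f := jumpF 0) (ω := ω) (b := 0) le_rfl (by rw [h4]; exact zero_le)
  unfold proc
  exact abs_nonpos_iff.1 h5

theorem good_right {ω : ι → ℕ × (ℕ → ℝ × ℝ)} (hω : Gd ω) (t : ℝ) :
    ContinuousWithinAt (fun s => proc s ω) (Set.Ici t) t := by
  unfold ContinuousWithinAt proc
  refine tendsto_rtot (b := fun p => |jumpF (t + 1) p|) (hω (t + 1)) (fun _ => abs_nonneg _) ?_ ?_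
  · intro p
    by_cases hp : p.1 ≤ t
    · refine tendsto_const_nhds.congr' ?_
      filter_upwards [self_mem_nhdsWithin] with s hs
      have hs' : t ≤ s := hs
      unfold jumpF
      rw [if_pos hp, if_pos (hp.trans hs')]
    · refine tendsto_const_nhds.congr' ?_
      filter_upwards [mem_nhdsWithin_of_mem_nhds (Iio_mem_nhds (not_le.1 hp))] with s hs
      unfold jumpF
      rw [if_neg hp, if_neg (not_le.2 hs)]
  · filter_upwards [mem_nhdsWithin_of_mem_nhds (Iio_mem_nhds (lt_add_one t))] with s hs p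
    exact abs_jumpF_mono (le_of_lt hs) p

theorem good_left {ω : ι → ℕ × (ℕ → ℝ × ℝ)} (hω : Gd ω) (t : ℝ) :
    ∃ l : ℝ, Tendsto (fun s => proc s ω) (𝓝[<] t) (𝓝 l) := by
  refine ⟨rtot (fun p => if p.1 < t then p.2 else 0) ω, ?_⟩
  unfold proc
  refine tendsto_rtot (b := fun p => |jumpF t p|) (hω t) (fun _ => abs_nonneg _) ?_ ?_
  · intro p
    by_cases hp : p.1 < t
    · refine tendsto_const_nhds.congr' ?_
      filter_upwards [mem_nhdsWithin_of_mem_nhds (Ioi_mem_nhds hp)] with s hs
      unfold jumpF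
      rw [if_pos hp, if_pos (le_of_lt hs)]
    · refine tendsto_const_nhds.congr' ?_
      filter_upwards [self_mem_nhdsWithin] with s hs
      unfold jumpF
      rw [if_neg hp, if_neg (not_le.2 (lt_of_lt_of_le hs (not_lt.1 hp)))]
  · filter_upwards [self_mem_nhdsWithin] with s hs p
    exact abs_jumpF_mono (le_of_lt hs) p

end Pool.Agent.TH968
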